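import Pool.Agent.X185.QP4

set_option autoImplicit false

/-! Uniqueness of the quasi-parabolic structure. -/

namespace Pool.Agent.X185.QP

open Classical Pointwise

/-- An Archimedean bound. -/
lemma arch {a b B : ℝ} (h : ∀ n : ℕ, a * n ≤ B + b * n) : a ≤ b := by
  by_contra hlt
  push Not at hlt
  obtain ⟨n, hn⟩ := exists_nat_gt (B / (a - b))
  have h1 := h n
  have h2 : 0 < a - b := by linarith
  rw [div_lt_iff₀ h2] at hn
  linarith

lemma t_growth {Y : Set G} (hY : Subgroup.closure Y = ⊤) {g : G} (hg : Lox Y g) :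
    ∃ c : ℝ, 0 < c ∧ ∀ m : ℕ, c * m ≤ wl Y (t ^ m) := by
  have hL := wl_isLen hY
  have key : ∀ g : G, Lox Y g → 0 < κ g → ∃ c : ℝ, 0 < c ∧ ∀ m : ℕ, c * m ≤ wl Y (t ^ m) := by
    intro g hg hk
    obtain ⟨c, hc, hcn⟩ := hg
    obtain ⟨M, hM⟩ := pow_decomp hk.le
    obtain ⟨B, hB⟩ := HN_bounded (wl Y) hL M
    obtain ⟨k, hkk⟩ : ∃ k : ℕ, (k : ℤ) = κ g := ⟨(κ g).toNat, by omega⟩
    have hkpos : 0 < k := by omega
    refine ⟨c / k, by positivity, fun m => ?_⟩
    have hkR : (0 : ℝ) < k := by exact_mod_cast hkpos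
    rw [div_mul_eq_mul_div, div_le_iff₀ hkR]
    apply arch (B := B)
    intro j
    have h1 := hcn (m * j)
    have h2 := hB _ (hM (m * j))
    have e1 : t ^ (((m * j : ℕ) : ℤ) * κ g) = (t ^ m) ^ (j * k) := by
      rw [← hkk, ← pow_mul, ← zpow_natCast]
      congr 1
      push_cast; ring
    rw [e1] at h2
    have e2 : g ^ (m * j) = (g ^ (m * j) * ((t ^ m) ^ (j * k))⁻¹) * (t ^ m) ^ (j * k) := by group
    have h3 := hL.mul (g ^ (m * j) * ((t ^ m) ^ (j * k))⁻¹) ((t ^ m) ^ (j * k))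
    rw [← e2] at h3
    have h4 := hL.pow (t ^ m) (j * k)
    have h5 : wl Y (g ^ (m * j)) ≤ B + j * k * wl Y (t ^ m) := by omega
    have h6 : (wl Y (g ^ (m * j)) : ℝ) ≤ B + j * k * wl Y (t ^ m) := by exact_mod_cast h5
    push_cast at h1
    calc c * m * j = c * (m * j) := by ring
      _ ≤ _ := h1
      _ ≤ _ := h6
      _ = _ := by ring
  have hk := kappa_of_lox hY hg
  rcases lt_or_gt_of_ne hk with h | h
  · refine key g⁻¹ ?_ (by simpa using h)
    obtain ⟨c, hc, hcn⟩ := hg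
    refine ⟨c, hc, fun n => ?_⟩
    rw [inv_pow, hL.inv]
    exact hcn n
  · exact key g hg h

lemma kappa_bound {Y : Set G} (hY : Subgroup.closure Y = ⊤) {c : ℝ}
    (hcm : ∀ m : ℕ, c * m ≤ wl Y (t ^ m)) {y : G} (hy : wl Y y ≤ 1) :
    c * |(κ y : ℝ)| ≤ 1 := by
  have hL := wl_isLen hY
  have key : ∀ y : G, wl Y y ≤ 1 → 0 ≤ κ y → c * |(κ y : ℝ)| ≤ 1 := by
    intro y hy hk
    obtain ⟨M, hM⟩ := pow_decomp hk
    obtain ⟨B, hB⟩ := HN_bounded (wl Y) hL M
    obtain ⟨k, hkk⟩ : ∃ k : ℕ, (k : ℤ) = κ y := ⟨(κ y).toNat, by omega⟩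
    rw [← hkk]
    simp only [Int.cast_natCast, Nat.abs_cast]
    apply arch (B := B)
    intro n
    have h1 := hcm (n * k)
    have h2 := hB _ (hM n)
    have e1 : t ^ ((n : ℤ) * κ y) = t ^ (n * k) := by
      rw [← hkk, ← zpow_natCast]
      congr 1
    rw [e1] at h2
    have e2 : t ^ (n * k) = (y ^ n * (t ^ (n * k))⁻¹)⁻¹ * y ^ n := by group
    have h3 := hL.mul (y ^ n * (t ^ (n * k))⁻¹)⁻¹ (y ^ n)
    rw [← e2, hL.inv] at h3
    have h4 := hL.pow y n
    have h5 : n * wl Y y ≤ n := by nlinarith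
    have h6 : wl Y (t ^ (n * k)) ≤ B + n := by omega
    have h7 : (wl Y (t ^ (n * k)) : ℝ) ≤ B + n := by exact_mod_cast h6
    push_cast at h1
    calc c * k * n = c * (n * k) := by ring
      _ ≤ _ := h1
      _ ≤ _ := h7
      _ = _ := by ring
  rcases le_or_gt 0 (κ y) with h | h
  · exact key y hy h
  · have := key y⁻¹ (by rw [hL.inv]; exact hy) (by rw [κ_inv]; omega)
    rw [κ_inv] at this
    push_cast at this
    rwa [abs_neg] at this

lemma gp_t {Y : Set G} (hY : Subgroup.closure Y = ⊤) {c : ℝ} (hc : 0 < c)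
    (hcm : ∀ m : ℕ, c * m ≤ wl Y (t ^ m))
    (hδ : ∃ δ : ℝ, ∀ x y z : G, min (gpr Y x y) (gpr Y y z) - δ ≤ gpr Y x z) :
    ∃ D : ℝ, ∀ a d : ℕ, c * a - D ≤ gpr Y (t ^ a) (t ^ (a + d)) := by
  have hL := wl_isLen hY
  obtain ⟨δ0, hδ0⟩ := hδ
  obtain ⟨δ, hδpos, hδ⟩ : ∃ δ : ℝ, 0 ≤ δ ∧
      ∀ x y z : G, min (gpr Y x y) (gpr Y y z) - δ ≤ gpr Y x z := by
    refine ⟨max δ0 0, le_max_right _ _, fun x y z => ?_⟩
    have := hδ0 x y z
    have := le_max_left δ0 0
    linarith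
  obtain ⟨K, hK⟩ := exists_nat_gt (δ / c)
  rw [div_lt_iff₀ hc] at hK
  obtain ⟨C, hC⟩ : ∃ C : ℕ, C = wl Y t := ⟨_, rfl⟩
  have hsmall : ∀ a d : ℕ, d ≤ K → c * a - C * K / 2 ≤ gpr Y (t ^ a) (t ^ (a + d)) := by
    intro a d hd
    unfold gpr
    have e : (t ^ a)⁻¹ * t ^ (a + d) = t ^ d := by rw [pow_add]; group
    rw [e]
    have h1 := hcm a
    have h2 := hcm (a + d)
    have h3 := hL.pow t d
    rw [← hC] at h3
    have h4 : wl Y (t ^ d) ≤ K * C := h3.trans (Nat.mul_le_mul_right C hd)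
    have h4' : (wl Y (t ^ d) : ℝ) ≤ K * C := by exact_mod_cast h4
    push_cast at h2
    have h5 : 0 ≤ c * d := by positivity
    nlinarith
  refine ⟨C * K / 2 + δ, fun a d => ?_⟩
  induction d using Nat.strong_induction_on generalizing a with
  | _ d ih =>
    rcases le_or_gt d K with hd | hd
    · have := hsmall a d hd
      linarith
    · rcases Nat.eq_zero_or_pos K with hK0 | hKpos
      · rw [hK0] at hK
        simp at hK
        linarith
      · have h1 := hsmall a K le_rfl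
        have h2 := ih (d - K) (by omega) (a + K)
        have e : a + K + (d - K) = a + d := by omega
        rw [e] at h2
        have h3 := hδ (t ^ a) (t ^ (a + K)) (t ^ (a + d))
        push_cast at h2
        have h4 : c * a - C * K / 2 ≤
            min (gpr Y (t ^ a) (t ^ (a + K))) (gpr Y (t ^ (a + K)) (t ^ (a + d))) := by
          apply le_min h1
          nlinarith
        linarith

lemma gpr_comm {A : Type} [Group A] {S : Set A} (hS : Subgroup.closure S = ⊤) (a b : A) :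
    gpr S a b = gpr S b a := by
  unfold gpr
  have := (wl_isLen hS).inv (a⁻¹ * b)
  rw [mul_inv_rev, inv_inv] at this
  rw [this]; ring

lemma SE_same {Y : Set G} (hY : Subgroup.closure Y = ⊤) {c : ℝ} (hc : 0 < c)
    (hcm : ∀ m : ℕ, c * m ≤ wl Y (t ^ m))
    (hδ : ∃ δ : ℝ, ∀ x y z : G, min (gpr Y x y) (gpr Y y z) - δ ≤ gpr Y x z)
    (B : ℕ) (hB : ∀ h : G, κ h = 0 → wl Y h ≤ B) {g h : G}
    (hgh : (0 < κ g ∧ 0 < κ h) ∨ (κ g < 0 ∧ κ h < 0)) : SE Y g h := by
  have hL := wl_isLen hY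
  obtain ⟨D, hD⟩ := gp_t hY hc hcm hδ
  -- symmetric version
  have hD' : ∀ a b : ℕ, c * (min a b : ℕ) - D ≤ gpr Y (t ^ a) (t ^ b) := by
    intro a b
    rcases le_total a b with hab | hab
    · have := hD a (b - a)
      rw [Nat.add_sub_cancel' hab] at this
      rw [min_eq_left hab]; exact this
    · have := hD b (a - b)
      rw [Nat.add_sub_cancel' hab] at this
      rw [min_eq_right hab, gpr_comm hY]; exact this
  -- comparison with powers of the shift
  have hcmp : ∀ u : G, ∀ z : ℤ, κ u = z → wl Y u ≤ wl Y (t ^ z) + B ∧ wl Y (t ^ z) ≤ wl Y u + B := by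
    intro u z hz
    have h1 := hB (u * (t ^ z)⁻¹) (by simp [hz])
    constructor
    · have e : u = (u * (t ^ z)⁻¹) * t ^ z := by group
      have := hL.mul (u * (t ^ z)⁻¹) (t ^ z)
      rw [← e] at this
      omega
    · have e : t ^ z = (u * (t ^ z)⁻¹)⁻¹ * u := by group
      have := hL.mul (u * (t ^ z)⁻¹)⁻¹ u
      rw [← e, hL.inv] at this
      omega
  have habs : ∀ z : ℤ, wl Y (t ^ z) = wl Y (t ^ z.natAbs) := by
    intro z
    rcases Int.natAbs_eq z with hz | hz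
    · conv_lhs => rw [hz]
      rw [zpow_natCast]
    · conv_lhs => rw [hz]
      rw [zpow_neg, hL.inv, zpow_natCast]
  have main : ∀ u v : G, ((0 ≤ κ u ∧ 0 ≤ κ v) ∨ (κ u ≤ 0 ∧ κ v ≤ 0)) →
      c * (min (κ u).natAbs (κ v).natAbs : ℕ) - D - 2 * B ≤ gpr Y u v := by
    intro u v huv
    have h1 := (hcmp u _ rfl).2
    have h2 := (hcmp v _ rfl).2
    have h3 := (hcmp (u⁻¹ * v) (κ v - κ u) (by simp; ring)).1
    rw [habs] at h1 h2 h3
    have h4 := hD' (κ u).natAbs (κ v).natAbs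
    have h5 : wl Y ((t ^ (κ u).natAbs)⁻¹ * t ^ (κ v).natAbs) = wl Y (t ^ (κ v - κ u).natAbs) := by
      have e1 : (t ^ (κ u).natAbs)⁻¹ * t ^ (κ v).natAbs =
          t ^ (((κ v).natAbs : ℤ) - (κ u).natAbs) := by
        rw [zpow_sub, zpow_natCast, zpow_natCast]
        have hcomm : Commute ((t ^ (κ u).natAbs)⁻¹) (t ^ (κ v).natAbs) :=
          (Commute.pow_pow (Commute.refl t) _ _).inv_left
        exact hcomm.eq
      rw [e1, habs]
      congr 2
      omega
    unfold gpr at h4 ⊢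
    rw [h5] at h4
    have h1' : (wl Y (t ^ (κ u).natAbs) : ℝ) ≤ wl Y u + B := by exact_mod_cast h1
    have h2' : (wl Y (t ^ (κ v).natAbs) : ℝ) ≤ wl Y v + B := by exact_mod_cast h2
    have h3' : (wl Y (u⁻¹ * v) : ℝ) ≤ wl Y (t ^ (κ v - κ u).natAbs) + B := by exact_mod_cast h3
    have hBpos : (0 : ℝ) ≤ B := Nat.cast_nonneg _
    linarith
  intro K
  obtain ⟨N, hN⟩ := exists_nat_gt ((K + D + 2 * B) / c)
  rw [div_lt_iff₀ hc] at hN
  refine ⟨N, fun n m hn hm => ?_⟩
  have h1 := main (g ^ n) (h ^ m) (by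
    rw [κ_pow, κ_pow]
    rcases hgh with ⟨h1, h2⟩ | ⟨h1, h2⟩
    · left; constructor <;> positivity
    · right; constructor <;> nlinarith)
  have h2 : N ≤ min (κ (g ^ n)).natAbs (κ (h ^ m)).natAbs := by
    rw [κ_pow, κ_pow, Int.natAbs_mul, Int.natAbs_mul]
    have a1 : 1 ≤ (κ g).natAbs := by omega
    have a2 : 1 ≤ (κ h).natAbs := by omega
    simp only [Int.natAbs_natCast]
    apply le_min <;> nlinarith
  have h3 : (N : ℝ) ≤ (min (κ (g ^ n)).natAbs (κ (h ^ m)).natAbs : ℕ) := by exact_mod_cast h2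
  nlinarith

theorem QP_unique {Y : Set G} (hQ : QPs Y) :
    (∃ C : ℕ, ∀ y ∈ Y, wl X0 y ≤ C) ∧ (∃ C : ℕ, ∀ x ∈ X0, wl Y x ≤ C) := by
  obtain ⟨hY, hδ, ⟨g, h, hg, hh, hgh⟩, _⟩ := hQ
  have hL := wl_isLen hY
  constructor
  · obtain ⟨c, hc, hcm⟩ := t_growth hY hg
    by_cases hcase : ∀ R : ℕ, ∃ M : ℕ, ∀ h : G, κ h = 0 → wl Y h ≤ R → InH M h
    · obtain ⟨k, hk⟩ := exists_nat_gt (1 / c)
      have hkap : ∀ y ∈ Y, |κ y| ≤ k := by
        intro y hy
        have h1 := kappa_bound hY hcm (wl_gen hy)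
        have h2 : |(κ y : ℝ)| ≤ 1 / c := by
          rw [le_div_iff₀ hc]; linarith
        have h3 : |(κ y : ℝ)| ≤ k := by linarith
        exact_mod_cast h3
      obtain ⟨M, hM⟩ := hcase (1 + k * wl Y t)
      refine ⟨3 * k + 2 * M + 1, fun y hy => ?_⟩
      have hky := hkap y hy
      have hky' := abs_le.1 hky
      have h1 : InH M (y * (t ^ κ y)⁻¹) := by
        apply hM
        · simp
        · have a1 := hL.mul y (t ^ κ y)⁻¹
          rw [hL.inv] at a1
          have a2 : wl Y (t ^ κ y) ≤ k * wl Y t := by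
            rcases Int.natAbs_eq (κ y) with hz | hz
            · rw [hz, zpow_natCast]
              refine (hL.pow t _).trans (Nat.mul_le_mul_right _ ?_)
              omega
            · rw [hz, zpow_neg, hL.inv, zpow_natCast]
              refine (hL.pow t _).trans (Nat.mul_le_mul_right _ ?_)
              omega
          have a3 := wl_gen hy
          omega
      have e1 : ac (t ^ κ y)⁻¹ zE = zE := by
        rw [← zpow_neg]; exact ac_t_zpow_zero _
      have h2 : Agree (-M) (ac y zE) zE := by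
        have := h1.2
        rwa [ac_mul, e1] at this
      have h3 : -(M : ℤ) - k ≤ lev 1 y := by
        rw [le_lev]
        rw [abs_le] at hky
        refine ⟨by rw [κ_one]; omega, by omega, ?_⟩
        rw [ac_one]
        exact h2.symm.mono (by omega)
      have h4 := wl_upper y
      unfold Di at h4
      rw [κ_one] at h4
      rw [abs_le] at hky
      omega
    · exfalso
      push Not at hcase
      obtain ⟨R, hR⟩ := hcase
      obtain ⟨B, hB⟩ := ker_bounded (wl Y) hL R (fun M => by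
        obtain ⟨h, h1, h2, h3⟩ := hR M
        exact ⟨h, h1, h3, h2⟩)
      have hkg := kappa_of_lox hY hg
      have hkh := kappa_of_lox hY hh
      have key : ∀ {a b : G}, ((0 < κ a ∧ 0 < κ b) ∨ (κ a < 0 ∧ κ b < 0)) → SE Y a b :=
        fun hab => SE_same hY hc hcm hδ B hB hab
      apply hgh
      rcases lt_or_gt_of_ne hkg with a | a <;> rcases lt_or_gt_of_ne hkh with b | b
      · exact Or.inl ⟨key (by omega), key (by simp only [κ_inv]; omega)⟩
      · exact Or.inr ⟨key (by simp only [κ_inv]; omega), key (by simp only [κ_inv]; omega)⟩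
      · exact Or.inr ⟨key (by simp only [κ_inv]; omega), key (by simp only [κ_inv]; omega)⟩
      · exact Or.inl ⟨key (by omega), key (by simp only [κ_inv]; omega)⟩
  · obtain ⟨B, hB⟩ := H0_bounded (wl Y) hL
    refine ⟨B + wl Y t, fun x hx => ?_⟩
    rcases hx with hx | hx
    · have := hB x hx; omega
    · rw [Set.mem_singleton_iff] at hx
      rw [hx]; omega

end Pool.Agent.X185.QP
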