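import Mathlib

set_option autoImplicit false

/-! Sequences indexed by the integers, vanishing far to the left, and the group of their
shift-like isometries with countably many active letters. -/

namespace Pool.Agent.X185.QP

open Classical

/-- Real sequences indexed by the integers that vanish far to the left. -/
def E : Type := {x : ℤ → ℝ // ∃ n : ℤ, ∀ i ≤ n, x i = 0}

/-- Agreement up to the index `n`. -/
def Agree (n : ℤ) (x y : E) : Prop := ∀ i ≤ n, x.1 i = y.1 i

/-- The zero sequence. -/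
def zE : E := ⟨fun _ => 0, 0, fun _ _ => rfl⟩

@[simp] lemma zE_apply (i : ℤ) : zE.1 i = 0 := rfl

lemma E.ext {x y : E} (h : ∀ i, x.1 i = y.1 i) : x = y := Subtype.ext (funext h)

lemma Agree.refl (n : ℤ) (x : E) : Agree n x x := fun _ _ => rfl
lemma Agree.symm {n : ℤ} {x y : E} (h : Agree n x y) : Agree n y x := fun i hi => (h i hi).symm
lemma Agree.trans {n : ℤ} {x y z : E} (h : Agree n x y) (h' : Agree n y z) : Agree n x z :=
  fun i hi => (h i hi).trans (h' i hi)
lemma Agree.mono {m n : ℤ} {x y : E} (hmn : m ≤ n) (h : Agree n x y) : Agree m x y :=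
  fun i hi => h i (hi.trans hmn)

lemma exists_agree (x y : E) : ∃ n : ℤ, Agree n x y := by
  obtain ⟨a, ha⟩ := x.2
  obtain ⟨b, hb⟩ := y.2
  refine ⟨min a b, fun i hi => ?_⟩
  rw [ha i (hi.trans (min_le_left _ _)), hb i (hi.trans (min_le_right _ _))]

/-- A first place of disagreement. -/
lemma exists_first {x y : E} {i : ℤ} (h : x.1 i ≠ y.1 i) :
    ∃ m ≤ i, x.1 m ≠ y.1 m ∧ ∀ j < m, x.1 j = y.1 j := by
  obtain ⟨n, hn⟩ := exists_agree x y
  obtain ⟨m, hm1, hm2⟩ := Int.exists_least_of_bdd (P := fun j => x.1 j ≠ y.1 j)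
    ⟨n, fun z hz => by
      by_contra hlt
      exact hz (hn z (by omega))⟩ ⟨i, h⟩
  refine ⟨m, hm2 i h, hm1, fun j hj => ?_⟩
  by_contra hne
  have := hm2 j hne
  omega

/-- `g` moves levels by `k` and only touches letters of `C`, in the sense that beyond a letter
outside `C` the sequence is only shifted. -/
structure Good (k : ℤ) (C : Set ℝ) (g : Equiv.Perm E) : Prop where
  agree : ∀ x y n, Agree n x y ↔ Agree (n + k) (g x) (g y)
  letter : ∀ (x : E) (i : ℤ), x.1 i ∉ C → ∀ j, i ≤ j → (g x).1 (j + k) = x.1 j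

lemma Good.mono {k : ℤ} {C D : Set ℝ} {g : Equiv.Perm E} (h : Good k C g) (hCD : C ⊆ D) :
    Good k D g := ⟨h.agree, fun x i hi => h.letter x i (fun hc => hi (hCD hc))⟩

lemma Good.one (C : Set ℝ) : Good 0 C 1 := by
  refine ⟨fun x y n => by simp, fun x i _ j _ => by simp⟩

lemma Good.mul {k k' : ℤ} {C : Set ℝ} {g g' : Equiv.Perm E} (h : Good k C g)
    (h' : Good k' C g') : Good (k + k') C (g * g') := by
  refine ⟨fun x y n => ?_, fun x i hi j hj => ?_⟩
  · rw [h'.agree x y n, h.agree, Equiv.Perm.mul_apply, Equiv.Perm.mul_apply]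
    have : n + k' + k = n + (k + k') := by ring
    rw [this]
  · have h1 := h'.letter x i hi
    have h2 : (g' x).1 (i + k') ∉ C := by rw [h1 i le_rfl]; exact hi
    have h3 := h.letter (g' x) (i + k') h2 (j + k') (by omega)
    rw [Equiv.Perm.mul_apply]
    have : j + (k + k') = j + k' + k := by ring
    rw [this, h3, h1 j hj]

/-- Replace the letter at `i` by `b`. -/
noncomputable def setL (x : E) (i : ℤ) (b : ℝ) : E :=
  ⟨Function.update x.1 i b, by
    obtain ⟨n, hn⟩ := x.2
    refine ⟨min n (i - 1), fun j hj => ?_⟩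
    have : j ≠ i := by
      have := hj.trans (min_le_right _ _); omega
    rw [Function.update_of_ne this]
    exact hn j (hj.trans (min_le_left _ _))⟩

lemma Good.inv {k : ℤ} {C : Set ℝ} {g : Equiv.Perm E} (h : Good k C g) :
    Good (-k) C g⁻¹ := by
  have hag : ∀ x y n, Agree n x y ↔ Agree (n + -k) (g⁻¹ x) (g⁻¹ y) := by
    intro x y n
    rw [h.agree (g⁻¹ x) (g⁻¹ y) (n + -k)]
    simp
  refine ⟨hag, fun y i hi j hj => ?_⟩
  -- y = g x
  obtain ⟨x, rfl⟩ := g.surjective y
  have hx : g⁻¹ (g x) = x := by simp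
  rw [hx]
  set b := (g x).1 i with hb
  set x' := setL x (i - k) b with hx'
  have hx'i : x'.1 (i - k) = b := by simp [hx', setL]
  have h1 := h.letter x' (i - k) (by rw [hx'i]; exact hi)
  have h2 : Agree (i - k - 1) x x' := by
    intro l hl
    have : l ≠ i - k := by omega
    simp [hx', setL, Function.update_of_ne this]
  have h3 := (h.agree x x' _).1 h2
  have h4 : Agree i (g x) (g x') := by
    intro l hl
    rcases lt_or_eq_of_le hl with hlt | rfl
    · exact h3 l (by omega)
    · have := h1 (l - k) le_rfl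
      rw [sub_add_cancel] at this
      rw [this, hx'i]
  have h5 : Agree (i - k) x x' := by
    rw [h.agree x x' (i - k)]
    simpa using h4
  have h6 : x.1 (i - k) = b := by rw [h5 _ le_rfl, hx'i]
  have h7 := h.letter x (i - k) (by rw [h6]; exact hi) (j - k) (by omega)
  rw [sub_add_cancel] at h7
  rw [h7]
  rfl

/-- The group. -/
def G : Subgroup (Equiv.Perm E × Multiplicative ℤ) where
  carrier := {p | ∃ C : Set ℝ, C.Countable ∧ Good (Multiplicative.toAdd p.2) C p.1}
  one_mem' := ⟨∅, Set.countable_empty, Good.one ∅⟩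
  mul_mem' := by
    rintro a b ⟨C, hC, h⟩ ⟨D, hD, h'⟩
    exact ⟨C ∪ D, hC.union hD, (h.mono Set.subset_union_left).mul (h'.mono Set.subset_union_right)⟩
  inv_mem' := by
    rintro a ⟨C, hC, h⟩
    exact ⟨C, hC, h.inv⟩

/-- Level shift. -/
def κ (g : G) : ℤ := Multiplicative.toAdd g.1.2
/-- The action. -/
def ac (g : G) (x : E) : E := g.1.1 x

@[simp] lemma κ_one : κ 1 = 0 := rfl
@[simp] lemma κ_mul (g h : G) : κ (g * h) = κ g + κ h := rfl
@[simp] lemma κ_inv (g : G) : κ g⁻¹ = - κ g := rfl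
@[simp] lemma κ_pow (g : G) (n : ℕ) : κ (g ^ n) = n * κ g := by
  induction n with
  | zero => simp
  | succ n ih => rw [pow_succ, κ_mul, ih]; push_cast; ring
@[simp] lemma κ_zpow (g : G) (n : ℤ) : κ (g ^ n) = n * κ g := by
  cases n with
  | ofNat n => simp
  | negSucc n => rw [zpow_negSucc, κ_inv, κ_pow, Int.negSucc_eq]; push_cast; ring

@[simp] lemma ac_one (x : E) : ac 1 x = x := rfl
@[simp] lemma ac_mul (g h : G) (x : E) : ac (g * h) x = ac g (ac h x) := rfl
@[simp] lemma ac_inv_ac (g : G) (x : E) : ac g⁻¹ (ac g x) = x := by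
  rw [← ac_mul]; simp
@[simp] lemma ac_ac_inv (g : G) (x : E) : ac g (ac g⁻¹ x) = x := by
  rw [← ac_mul]; simp

lemma agree_ac (g : G) (x y : E) (n : ℤ) : Agree n x y ↔ Agree (n + κ g) (ac g x) (ac g y) := by
  obtain ⟨C, _, h⟩ := g.2
  exact h.agree x y n

lemma G.ext' {g h : G} (h1 : ∀ x, ac g x = ac h x) (h2 : κ g = κ h) : g = h := by
  apply Subtype.ext
  apply Prod.ext
  · exact Equiv.ext h1
  · exact Multiplicative.toAdd.injective h2

/-- Elements with zero level shift. -/
def mk0 (g : Equiv.Perm E) (h : ∃ C : Set ℝ, C.Countable ∧ Good 0 C g) : G := ⟨(g, 1), h⟩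

@[simp] lemma κ_mk0 (g : Equiv.Perm E) (h) : κ (mk0 g h) = 0 := rfl
@[simp] lemma ac_mk0 (g : Equiv.Perm E) (h) (x : E) : ac (mk0 g h) x = g x := rfl

/-! ### The shift -/

/-- The shift as a permutation. -/
def shiftP : Equiv.Perm E where
  toFun x := ⟨fun i => x.1 (i - 1), by
    obtain ⟨n, hn⟩ := x.2
    exact ⟨n, fun i hi => hn _ (by omega)⟩⟩
  invFun x := ⟨fun i => x.1 (i + 1), by
    obtain ⟨n, hn⟩ := x.2
    exact ⟨n - 1, fun i hi => hn _ (by omega)⟩⟩
  left_inv x := by apply E.ext; intro i; simp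
  right_inv x := by apply E.ext; intro i; simp

lemma shiftP_good : Good 1 ∅ shiftP := by
  refine ⟨fun x y n => ⟨fun h i hi => ?_, fun h i hi => ?_⟩, fun x i _ j _ => ?_⟩
  · exact h (i - 1) (by omega)
  · have := h (i + 1) (by omega)
    change x.1 (i + 1 - 1) = y.1 (i + 1 - 1) at this
    simpa using this
  · show x.1 (j + 1 - 1) = _
    simp

/-- The shift as a group element. -/
def t : G := ⟨(shiftP, Multiplicative.ofAdd 1), ⟨∅, Set.countable_empty, shiftP_good⟩⟩

@[simp] lemma κ_t : κ t = 1 := rfl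
lemma ac_t (x : E) (i : ℤ) : (ac t x).1 i = x.1 (i - 1) := rfl
@[simp] lemma ac_t_zero : ac t zE = zE := by apply E.ext; intro i; rfl
@[simp] lemma ac_t_inv_zero : ac t⁻¹ zE = zE := by
  have := ac_inv_ac t zE
  rwa [ac_t_zero] at this
@[simp] lemma ac_t_pow_zero (n : ℕ) : ac (t ^ n) zE = zE := by
  induction n with
  | zero => simp
  | succ n ih => rw [pow_succ, ac_mul, ac_t_zero, ih]
@[simp] lemma ac_t_zpow_zero (n : ℤ) : ac (t ^ n) zE = zE := by
  cases n with
  | ofNat n => simp
  | negSucc n =>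
    rw [zpow_negSucc]
    have := ac_inv_ac (t ^ (n + 1)) zE
    rwa [ac_t_pow_zero] at this

/-! ### Twisting along a sequence -/

/-- The underlying function of a twist. -/
noncomputable def twF (w : E) (π : ℤ → Equiv.Perm ℝ) (x : E) (i : ℤ) : ℝ :=
  if ∀ j < i, x.1 j = w.1 j then π i (x.1 i) else x.1 i

lemma twF_van (w w' : E) (π : ℤ → Equiv.Perm ℝ) (h : ∀ i, π i (w.1 i) = w'.1 i) (x : E) :
    ∃ n : ℤ, ∀ i ≤ n, twF w π x i = 0 := by
  obtain ⟨a, ha⟩ := w.2
  obtain ⟨b, hb⟩ := w'.2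
  obtain ⟨c, hc⟩ := x.2
  refine ⟨min a (min b c), fun i hi => ?_⟩
  have h1 := ha i (hi.trans (min_le_left _ _))
  have h2 := hb i (hi.trans ((min_le_right _ _).trans (min_le_left _ _)))
  have h3 := hc i (hi.trans ((min_le_right _ _).trans (min_le_right _ _)))
  unfold twF
  split_ifs
  · have := h i
    rw [h1, h2] at this
    rw [h3, this]
  · exact h3

/-- The twist as a function on sequences. -/
noncomputable def tw (w w' : E) (π : ℤ → Equiv.Perm ℝ) (h : ∀ i, π i (w.1 i) = w'.1 i)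
    (x : E) : E := ⟨twF w π x, twF_van w w' π h x⟩

lemma tw_agree (w w' : E) (π : ℤ → Equiv.Perm ℝ) (h : ∀ i, π i (w.1 i) = w'.1 i)
    {x y : E} {n : ℤ} (hxy : Agree n x y) : Agree n (tw w w' π h x) (tw w w' π h y) := by
  intro i hi
  show twF w π x i = twF w π y i
  unfold twF
  have hc : (∀ j < i, x.1 j = w.1 j) ↔ (∀ j < i, y.1 j = w.1 j) := by
    constructor
    · intro H j hj; rw [← hxy j (by omega)]; exact H j hj
    · intro H j hj; rw [hxy j (by omega)]; exact H j hj
  rw [hxy i hi]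
  by_cases hx : ∀ j < i, x.1 j = w.1 j
  · rw [if_pos hx, if_pos (hc.1 hx)]
  · rw [if_neg hx, if_neg (fun hy => hx (hc.2 hy))]

lemma tw_cond (w w' : E) (π : ℤ → Equiv.Perm ℝ) (h : ∀ i, π i (w.1 i) = w'.1 i)
    (x : E) (i : ℤ) :
    (∀ j < i, (tw w w' π h x).1 j = w'.1 j) ↔ (∀ j < i, x.1 j = w.1 j) := by
  constructor
  · intro H
    by_contra hne
    push Not at hne
    obtain ⟨j, hj, hxj⟩ := hne
    obtain ⟨m, hm, hm1, hm2⟩ := exists_first hxj
    have h1 := H m (by omega)
    have h2 : (tw w w' π h x).1 m = π m (x.1 m) := by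
      show twF w π x m = _
      unfold twF
      rw [if_pos hm2]
    rw [h2, ← h m] at h1
    exact hm1 ((π m).injective h1)
  · intro H j hj
    show twF w π x j = _
    unfold twF
    rw [if_pos (fun l hl => H l (by omega)), H j hj, h j]

lemma tw_left (w w' : E) (π : ℤ → Equiv.Perm ℝ) (h : ∀ i, π i (w.1 i) = w'.1 i)
    (h' : ∀ i, (π i).symm (w'.1 i) = w.1 i) (x : E) :
    tw w' w (fun i => (π i).symm) h' (tw w w' π h x) = x := by
  apply E.ext
  intro i
  show twF w' (fun i => (π i).symm) (tw w w' π h x) i = x.1 i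
  unfold twF
  by_cases hx : ∀ j < i, x.1 j = w.1 j
  · rw [if_pos ((tw_cond w w' π h x i).2 hx)]
    show (π i).symm (twF w π x i) = _
    unfold twF
    rw [if_pos hx]
    simp
  · rw [if_neg (fun H => hx ((tw_cond w w' π h x i).1 H))]
    show twF w π x i = _
    unfold twF
    rw [if_neg hx]

/-- The twist as a permutation. -/
noncomputable def twP (w w' : E) (π : ℤ → Equiv.Perm ℝ) (h : ∀ i, π i (w.1 i) = w'.1 i) :
    Equiv.Perm E where
  toFun := tw w w' π h
  invFun := tw w' w (fun i => (π i).symm) (fun i => by rw [← h i]; simp)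
  left_inv x := tw_left w w' π h _ x
  right_inv x := by
    have := tw_left w' w (fun i => (π i).symm) (fun i => by rw [← h i]; simp)
      (fun i => by simpa using h i) x
    simpa using this

lemma twP_good (w w' : E) (π : ℤ → Equiv.Perm ℝ) (h : ∀ i, π i (w.1 i) = w'.1 i)
    (C : Set ℝ) (hw : ∀ i, w.1 i ∈ C) (hπ : ∀ i, ∀ a ∉ C, π i a = a) :
    Good 0 C (twP w w' π h) := by
  refine ⟨fun x y n => ⟨fun H => ?_, fun H => ?_⟩, fun x i hi j hj => ?_⟩
  · rw [add_zero]
    exact tw_agree w w' π h H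
  · rw [add_zero] at H
    have := tw_agree w' w (fun i => (π i).symm) (fun i => by rw [← h i]; simp) H
    have e1 : ∀ z, tw w' w (fun i => (π i).symm) (fun i => by rw [← h i]; simp)
        (twP w w' π h z) = z := fun z => tw_left w w' π h _ z
    rw [e1, e1] at this
    exact this
  · rw [add_zero]
    show twF w π x j = _
    unfold twF
    rcases eq_or_lt_of_le hj with rfl | hlt
    · rw [hπ _ _ hi]; simp
    · rw [if_neg]
      intro H
      exact hi (by rw [H i hlt]; exact hw i)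

end Pool.Agent.X185.QP
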