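import Pool.Agent.X185.QP1

set_option autoImplicit false

/-! Boundedness of the stabiliser of the zero sequence: a hotel argument. -/

namespace Pool.Agent.X185.QP

open Classical

/-- Permutations which are good with respect to `C` and fix zero. -/
def NC (C : Set ℝ) : Subgroup (Equiv.Perm E) where
  carrier := {g | Good 0 C g ∧ g zE = zE}
  one_mem' := ⟨Good.one C, rfl⟩
  mul_mem' := by
    rintro a b ⟨h1, h2⟩ ⟨h3, h4⟩
    refine ⟨by simpa using h1.mul h3, ?_⟩
    rw [Equiv.Perm.mul_apply, h4, h2]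
  inv_mem' := by
    rintro a ⟨h1, h2⟩
    refine ⟨by simpa using h1.inv, ?_⟩
    rw [Equiv.Perm.inv_eq_iff_eq]
    exact h2.symm

/-- The leading letter of `x` is `l`. -/
def Lead (x : E) (l : ℝ) : Prop := l ≠ 0 ∧ ∃ m, x.1 m = l ∧ ∀ j < m, x.1 j = 0

lemma Lead.unique {x : E} {l l' : ℝ} (h : Lead x l) (h' : Lead x l') : l = l' := by
  obtain ⟨h0, m, h1, h2⟩ := h
  obtain ⟨h0', m', h1', h2'⟩ := h'
  rcases lt_trichotomy m m' with hlt | rfl | hlt
  · exact absurd (h1.symm.trans (h2' m hlt)) h0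
  · rw [← h1, ← h1']
  · exact absurd (h1'.symm.trans (h2 m' hlt)) h0'

lemma exists_lead {x : E} (h : x ≠ zE) : ∃ l, Lead x l := by
  have : ∃ i, x.1 i ≠ zE.1 i := by
    by_contra H
    push Not at H
    exact h (E.ext H)
  obtain ⟨i, hi⟩ := this
  obtain ⟨m, _, h1, h2⟩ := exists_first hi
  exact ⟨x.1 m, h1, m, rfl, h2⟩

lemma nc_fix {C : Set ℝ} {g : Equiv.Perm E} (hg : g ∈ NC C) {x : E} {l : ℝ} (h : Lead x l)
    (hl : l ∉ C) : g x = x := by
  obtain ⟨h0, m, h1, h2⟩ := h
  have hA : Agree (m - 1) x zE := fun i hi => h2 i (by omega)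
  have hB := (hg.1.agree _ _ _).1 hA
  rw [hg.2, add_zero] at hB
  apply E.ext
  intro i
  rcases lt_or_ge i m with hlt | hge
  · rw [hB i (by omega), hA i (by omega)]
  · have := hg.1.letter x m (by rw [h1]; exact hl) i hge
    rwa [add_zero] at this

lemma nc_lead {C : Set ℝ} {g : Equiv.Perm E} (hg : g ∈ NC C) {x : E} {l : ℝ} (h : Lead x l)
    (hl : l ∈ C) : ∃ l' ∈ C, Lead (g x) l' := by
  have hgx : g x ≠ zE := by
    intro H
    have : x = zE := by
      have h2 := hg.2
      rw [← h2] at H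
      exact g.injective H
    obtain ⟨h0, m, h1, h2⟩ := h
    rw [this] at h1
    exact h0 h1.symm
  obtain ⟨l', hl'⟩ := exists_lead hgx
  refine ⟨l', ?_, hl'⟩
  by_contra hn
  have h3 := nc_fix ((NC C).inv_mem hg) hl' hn
  have h4 : g⁻¹ (g x) = x := by simp
  rw [h4] at h3
  rw [← h3] at hl'
  exact hn (by rw [hl'.unique h]; exact hl)

/-- Index set of blocks. -/
abbrev I : Type := ℤ × ℤ
/-- Nonzero letters of `C`. -/
abbrev C0 (C : Set ℝ) : Type := {a : ℝ // a ∈ C ∧ a ≠ 0}

/-- Copies of the letters of `C`. -/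
structure Room (C : Set ℝ) where
  e : (I × C0 C) ↪ ℝ
  zero : ∀ c, e (0, c) = c.1
  ne : ∀ q, e q ≠ 0

lemma exists_room (C : Set ℝ) (hC : C.Countable) : Nonempty (Room C) := by
  have hU : ((C ∪ {0})ᶜ : Set ℝ).Infinite := by
    intro hfin
    have : (Set.univ : Set ℝ).Countable := by
      have h1 : (C ∪ {0}).Countable := hC.union (Set.countable_singleton _)
      have h2 := h1.union hfin.countable
      rwa [Set.union_compl_self] at h2
    exact Cardinal.not_countable_real this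
  have : Infinite ((C ∪ {0})ᶜ : Set ℝ) := hU.to_subtype
  have : Countable C := hC.to_subtype
  have : Countable (C0 C) := by
    have : Function.Injective (fun a : C0 C => (⟨a.1, a.2.1⟩ : C)) := by
      intro a b hab
      apply Subtype.ext
      simpa using hab
    exact this.countable
  obtain ⟨f1, hf1⟩ := exists_injective_nat (I × C0 C)
  let f2 := Infinite.natEmbedding ((C ∪ {0})ᶜ : Set ℝ)
  have key : ∀ q : I × C0 C, (f2 (f1 q)).1 ∉ C ∧ (f2 (f1 q)).1 ≠ 0 := by
    intro q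
    have := (f2 (f1 q)).2
    simp only [Set.mem_compl_iff, Set.mem_union, Set.mem_singleton_iff, not_or] at this
    exact this
  refine ⟨⟨⟨fun q => if q.1 = 0 then q.2.1 else (f2 (f1 q)).1, ?_⟩, ?_, ?_⟩⟩
  · rintro ⟨p, c⟩ ⟨p', c'⟩ h
    by_cases hp : p = 0
    · by_cases hp' : p' = 0
      · simp only [hp, hp', if_true] at h
        rw [hp, hp', Subtype.ext h]
      · simp only [hp, hp', if_true, if_false] at h
        exact absurd (h ▸ c.2.1) (key _).1
    · by_cases hp' : p' = 0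
      · simp only [hp, hp', if_true, if_false] at h
        exact absurd (h.symm ▸ c'.2.1) (key _).1
      · simp only [hp, hp', if_false] at h
        exact hf1 (f2.injective (Subtype.ext h))
  · intro c
    simp
  · rintro ⟨p, c⟩
    show (if p = 0 then c.1 else (f2 (f1 (p, c))).1) ≠ 0
    by_cases hp : p = 0
    · rw [if_pos hp]; exact c.2.2
    · rw [if_neg hp]; exact (key _).2

section
variable {C : Set ℝ} (r : Room C)

/-- The leading letter belongs to the block `p`. -/
def Blk (p : I) (x : E) : Prop := ∃ c, Lead x (r.e (p, c))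

lemma Blk.unique {r : Room C} {p q : I} {x : E} (h : Blk r p x) (h' : Blk r q x) : p = q := by
  obtain ⟨c, hc⟩ := h
  obtain ⟨c', hc'⟩ := h'
  have := r.e.injective (hc.unique hc')
  exact (Prod.ext_iff.1 this).1

/-- Letter permutation. -/
noncomputable def lp (σ : Equiv.Perm I) : Equiv.Perm ℝ :=
  Equiv.Perm.viaEmbedding (Equiv.prodCongr σ (Equiv.refl (C0 C))) r.e

lemma lp_apply (σ : Equiv.Perm I) (p : I) (c : C0 C) :
    lp r σ (r.e (p, c)) = r.e (σ p, c) := by
  unfold lp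
  rw [Equiv.Perm.viaEmbedding_apply]
  rfl

lemma lp_apply_of (σ : Equiv.Perm I) {a : ℝ} (h : a ∉ Set.range r.e) : lp r σ a = a :=
  Equiv.Perm.viaEmbedding_apply_of_notMem _ _ _ h

lemma zero_notMem : (0 : ℝ) ∉ Set.range r.e := by
  rintro ⟨q, hq⟩
  exact r.ne q hq

lemma lp_zero (σ : Equiv.Perm I) : lp r σ 0 = 0 := lp_apply_of r σ (zero_notMem r)

lemma lp_mul (σ τ : Equiv.Perm I) : lp r (σ * τ) = lp r σ * lp r τ := by
  apply Equiv.ext
  intro a
  rw [Equiv.Perm.mul_apply]
  by_cases h : a ∈ Set.range r.e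
  · obtain ⟨⟨p, c⟩, rfl⟩ := h
    rw [lp_apply, lp_apply, lp_apply]
    rfl
  · rw [lp_apply_of r _ h, lp_apply_of r _ h, lp_apply_of r _ h]

lemma lp_one : lp r 1 = 1 := by
  apply Equiv.ext
  intro a
  by_cases h : a ∈ Set.range r.e
  · obtain ⟨⟨p, c⟩, rfl⟩ := h
    rw [lp_apply]
    rfl
  · rw [lp_apply_of r _ h]; rfl

/-- Leading letter permutation. -/
noncomputable def hat (σ : Equiv.Perm I) : Equiv.Perm E :=
  twP zE zE (fun _ => lp r σ) (fun i => lp_zero r σ)

lemma hat_apply (σ : Equiv.Perm I) (x : E) (i : ℤ) :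
    (hat r σ x).1 i = if ∀ j < i, x.1 j = 0 then lp r σ (x.1 i) else x.1 i := rfl

lemma hat_cond (σ : Equiv.Perm I) (x : E) (i : ℤ) :
    (∀ j < i, (hat r σ x).1 j = 0) ↔ (∀ j < i, x.1 j = 0) :=
  tw_cond zE zE (fun _ => lp r σ) (fun i => lp_zero r σ) x i

lemma hat_mul (σ τ : Equiv.Perm I) : hat r (σ * τ) = hat r σ * hat r τ := by
  apply Equiv.ext
  intro x
  rw [Equiv.Perm.mul_apply]
  apply E.ext
  intro i
  rw [hat_apply, hat_apply]
  by_cases h : ∀ j < i, x.1 j = 0
  · rw [if_pos h, if_pos ((hat_cond r τ x i).2 h), hat_apply, if_pos h, lp_mul]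
    rfl
  · rw [if_neg h, if_neg (fun H => h ((hat_cond r τ x i).1 H)), hat_apply, if_neg h]

lemma hat_one : hat r 1 = 1 := by
  apply Equiv.ext
  intro x
  apply E.ext
  intro i
  rw [hat_apply, lp_one]
  split_ifs <;> rfl

lemma hat_inv (σ : Equiv.Perm I) : (hat r σ)⁻¹ = hat r σ⁻¹ := by
  rw [inv_eq_iff_mul_eq_one, ← hat_mul, mul_inv_cancel, hat_one]

lemma hat_pow (σ : Equiv.Perm I) (n : ℕ) : hat r (σ ^ n) = hat r σ ^ n := by
  induction n with
  | zero => rw [pow_zero, pow_zero, hat_one]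
  | succ n ih => rw [pow_succ, pow_succ, hat_mul, ih]

lemma hat_zero (σ : Equiv.Perm I) : hat r σ zE = zE := by
  apply E.ext
  intro i
  rw [hat_apply]
  split_ifs
  · exact lp_zero r σ
  · rfl

lemma hat_blk (σ : Equiv.Perm I) {p : I} {x : E} (h : Blk r p x) :
    Blk r (σ p) (hat r σ x) := by
  obtain ⟨c, h0, m, h1, h2⟩ := h
  refine ⟨c, r.ne _, m, ?_, ?_⟩
  · rw [hat_apply, if_pos h2, h1, lp_apply]
  · exact (hat_cond r σ x m).2 h2

lemma hat_fix (σ : Equiv.Perm I) {p : I} (hp : σ p = p) {x : E} (h : Blk r p x) :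
    hat r σ x = x := by
  obtain ⟨c, h0, m, h1, h2⟩ := h
  apply E.ext
  intro i
  rw [hat_apply]
  split_ifs with hc
  · rcases lt_trichotomy i m with hlt | rfl | hlt
    · rw [h2 i hlt, lp_zero]
    · rw [h1, lp_apply, hp]
    · exact absurd (h1.symm.trans (hc m hlt)) h0
  · rfl

lemma hat_good (σ : Equiv.Perm I) : Good 0 (C ∪ Set.range r.e ∪ {0}) (hat r σ) := by
  apply twP_good
  · intro i
    right; rfl
  · intro i a ha
    apply lp_apply_of
    intro h
    exact ha (Or.inl (Or.inr h))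

lemma nc_blk {g : Equiv.Perm E} (hg : g ∈ NC C) {x : E} (h : Blk r 0 x) : Blk r 0 (g x) := by
  obtain ⟨c, hc⟩ := h
  obtain ⟨l', hl', hl2⟩ := nc_lead hg hc (by rw [r.zero]; exact c.2.1)
  exact ⟨⟨l', hl', hl2.1⟩, by rw [r.zero]; exact hl2⟩

lemma nc_not_blk {g : Equiv.Perm E} (hg : g ∈ NC C) {x : E} (h : ¬ Blk r 0 x) : g x = x := by
  by_cases hx : x = zE
  · rw [hx]; exact hg.2
  · obtain ⟨l, hl⟩ := exists_lead hx
    apply nc_fix hg hl
    intro hlC
    exact h ⟨⟨l, hlC, hl.1⟩, by rw [r.zero]; exact hl⟩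

/-- Translation of block indices. -/
def tr (p : I) : Equiv.Perm I := Equiv.addLeft p

lemma tr_apply (p q : I) : tr p q = p + q := rfl

/-- The action on the block `p`. -/
noncomputable def U (a : I → NC C) (p : I) : Equiv.Perm E :=
  hat r (tr p) * (a p).1 * (hat r (tr p))⁻¹

lemma U_mul (a b : I → NC C) (p : I) : U r (a * b) p = U r a p * U r b p := by
  unfold U
  simp [mul_assoc]

lemma U_blk (a : I → NC C) {p : I} {x : E} (h : Blk r p x) : Blk r p (U r a p x) := by
  unfold U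
  rw [Equiv.Perm.mul_apply, Equiv.Perm.mul_apply, hat_inv]
  have h1 : Blk r 0 (hat r (tr p)⁻¹ x) := by
    have := hat_blk r (tr p)⁻¹ h
    have e : (tr p)⁻¹ p = 0 := by
      rw [Equiv.Perm.inv_eq_iff_eq, tr_apply, add_zero]
    rwa [e] at this
  have h2 := nc_blk r (a p).2 h1
  have h3 := hat_blk r (tr p) h2
  rwa [tr_apply, add_zero] at h3

/-- The patched map. -/
noncomputable def patF (a : I → NC C) (x : E) : E :=
  if h : ∃ p, Blk r p x then U r a h.choose x else x

lemma patF_blk (a : I → NC C) {p : I} {x : E} (h : Blk r p x) : patF r a x = U r a p x := by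
  unfold patF
  have hex : ∃ p, Blk r p x := ⟨p, h⟩
  rw [dif_pos hex]
  have := hex.choose_spec.unique h
  rw [this]

lemma patF_not (a : I → NC C) {x : E} (h : ¬ ∃ p, Blk r p x) : patF r a x = x := by
  unfold patF
  rw [dif_neg h]

lemma patF_mul (a b : I → NC C) (x : E) : patF r (a * b) x = patF r a (patF r b x) := by
  by_cases h : ∃ p, Blk r p x
  · obtain ⟨p, hp⟩ := h
    rw [patF_blk r _ hp, patF_blk r _ hp, patF_blk r _ (U_blk r b hp), U_mul]
    rfl
  · rw [patF_not r _ h, patF_not r _ h, patF_not r _ h]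

lemma patF_one (x : E) : patF r (1 : I → NC C) x = x := by
  by_cases h : ∃ p, Blk r p x
  · obtain ⟨p, hp⟩ := h
    rw [patF_blk r _ hp]
    unfold U
    simp
  · rw [patF_not r _ h]

/-- The patching homomorphism. -/
noncomputable def Φ : (I → NC C) →* Equiv.Perm E where
  toFun a :=
    { toFun := patF r a
      invFun := patF r a⁻¹
      left_inv := fun x => by rw [← patF_mul, inv_mul_cancel, patF_one]
      right_inv := fun x => by rw [← patF_mul, mul_inv_cancel, patF_one] }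
  map_one' := by
    apply Equiv.ext
    intro x
    exact patF_one r x
  map_mul' a b := by
    apply Equiv.ext
    intro x
    exact patF_mul r a b x

lemma Φ_apply (a : I → NC C) (x : E) : Φ r a x = patF r a x := rfl

lemma Φ_conj (σ : Equiv.Perm I) (a : I → NC C) :
    hat r σ * Φ r a * (hat r σ)⁻¹ = Φ r (fun p => a (σ⁻¹ p)) := by
  rw [mul_inv_eq_iff_eq_mul]
  apply Equiv.ext
  intro x
  rw [Equiv.Perm.mul_apply, Equiv.Perm.mul_apply, Φ_apply, Φ_apply]
  by_cases h : ∃ p, Blk r p x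
  · obtain ⟨p, hp⟩ := h
    rw [patF_blk r _ hp, patF_blk r _ (hat_blk r σ hp)]
    have e0 : (tr p)⁻¹ p = 0 := by
      rw [Equiv.Perm.inv_eq_iff_eq, tr_apply, add_zero]
    have hy : Blk r 0 (hat r (tr p)⁻¹ x) := by
      have := hat_blk r (tr p)⁻¹ hp
      rwa [e0] at this
    set y := hat r (tr p)⁻¹ x with hydef
    have hx : x = hat r (tr p) y := by
      rw [hydef, ← Equiv.Perm.mul_apply, ← hat_mul, mul_inv_cancel, hat_one]; rfl
    set θ : Equiv.Perm I := (tr (σ p))⁻¹ * σ * tr p with hθ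
    have hθ0 : θ 0 = 0 := by
      rw [hθ, Equiv.Perm.mul_apply, Equiv.Perm.mul_apply, tr_apply, add_zero,
        Equiv.Perm.inv_eq_iff_eq, tr_apply, add_zero]
    have hθm : hat r σ * hat r (tr p) = hat r (tr (σ p)) * hat r θ := by
      rw [← hat_mul, ← hat_mul, hθ]
      congr 1
      group
    have hay : Blk r 0 ((a p).1 y) := nc_blk r (a p).2 hy
    have l1 : hat r σ (U r a p x) = hat r (tr (σ p)) ((a p).1 y) := by
      have : U r a p x = hat r (tr p) ((a p).1 y) := by
        unfold U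
        rw [Equiv.Perm.mul_apply, Equiv.Perm.mul_apply, hat_inv]
      rw [this, ← Equiv.Perm.mul_apply (hat r σ), hθm, Equiv.Perm.mul_apply, hat_fix r θ hθ0 hay]
    have l2 : hat r σ x = hat r (tr (σ p)) y := by
      rw [hx, ← Equiv.Perm.mul_apply (hat r σ), hθm, Equiv.Perm.mul_apply, hat_fix r θ hθ0 hy]
    rw [l1, l2]
    unfold U
    simp
  · have h' : ¬ ∃ p, Blk r p (hat r σ x) := by
      rintro ⟨p, hp⟩
      apply h
      refine ⟨σ⁻¹ p, ?_⟩
      have := hat_blk r σ⁻¹ hp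
      rwa [← Equiv.Perm.mul_apply, ← hat_mul, inv_mul_cancel, hat_one] at this
    rw [patF_not r _ h, patF_not r _ h']

lemma Φ_single (g : NC C) : Φ r (fun p => if p = 0 then g else 1) = g.1 := by
  apply Equiv.ext
  intro x
  rw [Φ_apply]
  by_cases h : ∃ p, Blk r p x
  · obtain ⟨p, hp⟩ := h
    rw [patF_blk r _ hp]
    unfold U
    by_cases hp0 : p = 0
    · subst hp0
      have : tr (0 : I) = 1 := by
        apply Equiv.ext; intro q; rw [tr_apply, zero_add]; rfl
      rw [this, hat_one]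
      simp
    · have h0 : ¬ Blk r 0 x := fun h0 => hp0 (hp.unique h0)
      rw [nc_not_blk r g.2 h0]
      simp [hp0]
  · have h0 : ¬ Blk r 0 x := fun h0 => h ⟨0, h0⟩
    rw [patF_not r _ h, nc_not_blk r g.2 h0]

lemma U_mem (a : I → NC C) (p : I) : U r a p ∈ NC (C ∪ Set.range r.e ∪ {0}) := by
  unfold U
  have h1 : hat r (tr p) ∈ NC (C ∪ Set.range r.e ∪ {0}) := ⟨hat_good r _, hat_zero r _⟩
  have h2 : (a p).1 ∈ NC (C ∪ Set.range r.e ∪ {0}) :=
    ⟨(a p).2.1.mono (fun x hx => Or.inl (Or.inl hx)), (a p).2.2⟩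
  exact mul_mem (mul_mem h1 h2) (inv_mem h1)

lemma Φ_agree (a : I → NC C) {x y : E} {n : ℤ} (h : Agree n x y) :
    Agree n (Φ r a x) (Φ r a y) := by
  rw [Φ_apply, Φ_apply]
  by_cases h0 : Agree n x zE
  · have key : ∀ z, Agree n z zE → Agree n (patF r a z) zE := by
      intro z hz
      by_cases hb : ∃ p, Blk r p z
      · obtain ⟨p, hp⟩ := hb
        rw [patF_blk r _ hp]
        have hU := U_mem r a p
        have := (hU.1.agree z zE n).1 hz
        rwa [hU.2, add_zero] at this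
      · rwa [patF_not r _ hb]
    exact (key x h0).trans (key y (h.symm.trans h0)).symm
  · unfold Agree at h0
    push Not at h0
    obtain ⟨i, hi, hxi⟩ := h0
    obtain ⟨m, hm, h1, h2⟩ := exists_first hxi
    have hmn : m ≤ n := hm.trans hi
    have lx : Lead x (x.1 m) := ⟨h1, m, rfl, h2⟩
    have ly : Lead y (x.1 m) := ⟨h1, m, (h m hmn).symm, fun j hj => by
      rw [← h j (by omega)]; exact h2 j hj⟩
    by_cases hb : ∃ p, Blk r p x
    · obtain ⟨p, c, hc⟩ := hb
      have e1 := lx.unique hc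
      have hy : Blk r p y := ⟨c, by rw [← e1]; exact ly⟩
      rw [patF_blk r _ ⟨c, hc⟩, patF_blk r _ hy]
      have hU := U_mem r a p
      have := (hU.1.agree x y n).1 h
      rwa [add_zero] at this
    · have hb' : ¬ ∃ p, Blk r p y := by
        rintro ⟨p, c, hc⟩
        have e1 := ly.unique hc
        exact hb ⟨p, c, by rw [← e1]; exact lx⟩
      rwa [patF_not r _ hb, patF_not r _ hb']

lemma Φ_good (a : I → NC C) : Good 0 (C ∪ Set.range r.e ∪ {0}) (Φ r a) := by
  refine ⟨fun x y n => ⟨fun h => ?_, fun h => ?_⟩, fun x i hi j hj => ?_⟩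
  · rw [add_zero]; exact Φ_agree r a h
  · rw [add_zero] at h
    have := Φ_agree r a⁻¹ h
    rwa [← Equiv.Perm.mul_apply, ← Equiv.Perm.mul_apply, ← map_mul, inv_mul_cancel, map_one] at this
  · rw [Φ_apply]
    by_cases hb : ∃ p, Blk r p x
    · obtain ⟨p, hp⟩ := hb
      rw [patF_blk r _ hp]
      exact (U_mem r a p).1.letter x i hi j hj
    · rw [patF_not r _ hb, add_zero]

end

/-- The row shift. -/
def rho : Equiv.Perm I where
  toFun p := if p.2 = 0 then (p.1 + 1, p.2) else p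
  invFun p := if p.2 = 0 then (p.1 - 1, p.2) else p
  left_inv p := by
    obtain ⟨i, j⟩ := p
    by_cases h : j = 0 <;> simp [h]
  right_inv p := by
    obtain ⟨i, j⟩ := p
    by_cases h : j = 0 <;> simp [h]

lemma rho_inv (p : I) : rho⁻¹ p = if p.2 = 0 then (p.1 - 1, p.2) else p := rfl

lemma tr_pow (n : ℕ) : tr (0, 1) ^ n = tr (0, (n : ℤ)) := by
  induction n with
  | zero =>
    apply Equiv.ext; intro q
    rw [tr_apply]; simp
  | succ n ih =>
    apply Equiv.ext; intro q
    rw [pow_succ, Equiv.Perm.mul_apply, ih, tr_apply, tr_apply, tr_apply]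
    ext
    · simp
    · push_cast; simp; ring

/-- Length functions. -/
structure IsLen {A : Type} [Group A] (L : A → ℕ) : Prop where
  one : L 1 = 0
  inv : ∀ g, L g⁻¹ = L g
  mul : ∀ g h, L (g * h) ≤ L g + L h

lemma IsLen.pow {A : Type} [Group A] {L : A → ℕ} (h : IsLen L) (g : A) (n : ℕ) :
    L (g ^ n) ≤ n * L g := by
  induction n with
  | zero => simp [h.one]
  | succ n ih =>
    rw [pow_succ]
    calc L (g ^ n * g) ≤ L (g ^ n) + L g := h.mul _ _
      _ ≤ n * L g + L g := by omega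
      _ = (n + 1) * L g := by ring

theorem stab_bounded (L : G → ℕ) (hL : IsLen L) :
    ∃ B : ℕ, ∀ h : G, κ h = 0 → ac h zE = zE → L h ≤ B := by
  by_contra hcon
  push Not at hcon
  choose g hg0 hg1 hg2 using fun n : ℕ => hcon (n * n)
  have hgood : ∀ n, ∃ C : Set ℝ, C.Countable ∧ Good 0 C (g n).1.1 := by
    intro n
    obtain ⟨C, hC, h⟩ := (g n).2
    have e : Multiplicative.toAdd (g n).1.2 = 0 := hg0 n
    rw [e] at h
    exact ⟨C, hC, h⟩
  choose Cn hCn hCg using hgood
  set C : Set ℝ := ⋃ n, Cn n with hCdef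
  have hC : C.Countable := Set.countable_iUnion hCn
  let gN : ℕ → NC C := fun n => ⟨(g n).1.1, (hCg n).mono (Set.subset_iUnion Cn n), hg1 n⟩
  obtain ⟨r⟩ := exists_room C hC
  have hDc : (C ∪ Set.range r.e ∪ {0}).Countable := by
    have : Countable C := hC.to_subtype
    have : Countable (C0 C) := by
      have : Function.Injective (fun a : C0 C => (⟨a.1, a.2.1⟩ : C)) := by
        intro a b hab
        apply Subtype.ext
        simpa using hab
      exact this.countable
    exact (hC.union (Set.countable_range _)).union (Set.countable_singleton _)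
  let a : I → NC C := fun p => if 0 ≤ p.1 ∧ 0 ≤ p.2 then gN p.2.toNat else 1
  let F : G := mk0 (Φ r a) ⟨_, hDc, Φ_good r a⟩
  let H : Equiv.Perm I → G := fun σ => mk0 (hat r σ) ⟨_, hDc, hat_good r σ⟩
  have hHpow : ∀ n : ℕ, H (tr (0, 1)) ^ n = H (tr (0, (n : ℤ))) := by
    intro n
    induction n with
    | zero =>
      apply G.ext'
      · intro x
        show x = hat r (tr (0, ((0 : ℕ) : ℤ))) x
        rw [← tr_pow, pow_zero, hat_one]; rfl
      · rfl
    | succ n ih =>
      rw [pow_succ, ih]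
      apply G.ext'
      · intro x
        show hat r (tr (0, (n : ℤ))) (hat r (tr (0, 1)) x) = hat r (tr (0, ((n + 1 : ℕ) : ℤ))) x
        rw [← tr_pow, ← tr_pow, ← Equiv.Perm.mul_apply, ← hat_mul, pow_succ]
      · rfl
  have key : ∀ n : ℕ, g n = ((H (tr (0, 1)) ^ n)⁻¹ * F * H (tr (0, 1)) ^ n) *
      (H rho * ((H (tr (0, 1)) ^ n)⁻¹ * F * H (tr (0, 1)) ^ n) * (H rho)⁻¹)⁻¹ := by
    intro n
    rw [hHpow]
    set τ := tr (0, (n : ℤ)) with hτ
    have e1 : (hat r τ)⁻¹ * Φ r a * hat r τ = Φ r (fun p => a (τ p)) := by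
      have := Φ_conj r τ⁻¹ a
      rw [hat_inv, inv_inv, ← hat_inv] at this
      simpa using this
    have e2 : hat r rho * Φ r (fun p => a (τ p)) * (hat r rho)⁻¹
        = Φ r (fun p => a (τ (rho⁻¹ p))) := Φ_conj r rho _
    have e3 : (fun p => a (τ p)) * (fun p => a (τ (rho⁻¹ p)))⁻¹
        = (fun p : I => if p = 0 then gN n else 1) := by
      funext p
      obtain ⟨i, j⟩ := p
      rw [Pi.mul_apply, Pi.inv_apply, rho_inv]
      have ha : ∀ i j : ℤ, a (τ (i, j)) = if 0 ≤ i ∧ 0 ≤ (n : ℤ) + j then gN ((n : ℤ) + j).toNat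
          else 1 := by
        intro i j
        rw [hτ, tr_apply]
        show (if 0 ≤ (0 : ℤ) + i ∧ 0 ≤ (n : ℤ) + j then gN ((n : ℤ) + j).toNat else 1) = _
        rw [zero_add]
      by_cases hj : j = 0
      · subst hj
        simp only [if_true]
        rw [ha, ha]
        simp only [add_zero, Int.toNat_natCast, Int.natCast_nonneg, and_true]
        rcases lt_trichotomy i 0 with hi | hi | hi
        · have h1 : ¬ (0 ≤ i) := by omega
          have h2 : ¬ (0 ≤ i - 1) := by omega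
          have h3 : ((i, (0 : ℤ)) : I) ≠ 0 := by
            intro h; have := (Prod.ext_iff.1 h).1; simp at this; omega
          rw [if_neg h1, if_neg h2, if_neg h3]; simp
        · subst hi
          have h2 : ¬ ((0 : ℤ) ≤ 0 - 1) := by omega
          have h3 : (((0 : ℤ), (0 : ℤ)) : I) = 0 := rfl
          rw [if_neg h2, if_pos h3, if_pos le_rfl]; simp
        · have h1 : (0 ≤ i) := by omega
          have h2 : (0 ≤ i - 1) := by omega
          have h3 : ((i, (0 : ℤ)) : I) ≠ 0 := by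
            intro h; have := (Prod.ext_iff.1 h).1; simp at this; omega
          rw [if_pos h1, if_pos h2, if_neg h3]; simp
      · have h3 : ((i, j) : I) ≠ 0 := by
          intro h; have := (Prod.ext_iff.1 h).2; simp at this; omega
        simp [hj, h3]
    have e4 : (g n).1.1 = ((hat r τ)⁻¹ * Φ r a * hat r τ) *
        (hat r rho * ((hat r τ)⁻¹ * Φ r a * hat r τ) * (hat r rho)⁻¹)⁻¹ := by
      rw [e1, e2, ← map_inv, ← map_mul, e3, Φ_single]
    apply G.ext'
    · intro x
      show (g n).1.1 x = _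
      rw [e4]
      rfl
    · rw [hg0 n]
      simp [H, F]
  obtain ⟨A, hA⟩ : ∃ A, A = L F := ⟨_, rfl⟩
  obtain ⟨B, hB⟩ : ∃ B, B = L (H (tr (0, 1))) := ⟨_, rfl⟩
  obtain ⟨R, hR⟩ : ∃ R, R = L (H rho) := ⟨_, rfl⟩
  have bound : ∀ n : ℕ, L (g n) ≤ 2 * A + 4 * (n * B) + 2 * R := by
    intro n
    have h1 : L ((H (tr (0, 1)) ^ n)⁻¹ * F * H (tr (0, 1)) ^ n) ≤ A + 2 * (n * B) := by
      have := hL.mul ((H (tr (0, 1)) ^ n)⁻¹ * F) (H (tr (0, 1)) ^ n)
      have := hL.mul ((H (tr (0, 1)) ^ n)⁻¹) F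
      have := hL.inv (H (tr (0, 1)) ^ n)
      have := hL.pow (H (tr (0, 1))) n
      rw [← hB] at this
      omega
    rw [key n]
    obtain ⟨F', hF'⟩ : ∃ F', F' = (H (tr (0, 1)) ^ n)⁻¹ * F * H (tr (0, 1)) ^ n := ⟨_, rfl⟩
    rw [← hF'] at h1 ⊢
    have := hL.mul F' (H rho * F' * (H rho)⁻¹)⁻¹
    have := hL.inv (H rho * F' * (H rho)⁻¹)
    have := hL.mul (H rho * F') (H rho)⁻¹
    have := hL.mul (H rho) F'
    have := hL.inv (H rho)
    omega
  have hn := bound (2 * A + 4 * B + 2 * R)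
  have hn2 := hg2 (2 * A + 4 * B + 2 * R)
  set N := 2 * A + 4 * B + 2 * R
  have : 2 * A + 4 * (N * B) + 2 * R ≤ N * N := by
    rcases Nat.eq_zero_or_pos N with h0 | hpos
    · have hA0 : A = 0 := by omega
      have hR0 : R = 0 := by omega
      rw [h0, hA0, hR0]; simp
    · have h1 : N * N = N * (2 * A + 4 * B + 2 * R) := rfl
      rw [h1]
      nlinarith [Nat.mul_le_mul_right A hpos, Nat.mul_le_mul_right R hpos]
  omega

end Pool.Agent.X185.QP
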