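import Pool.Agent.X185.QP2

set_option autoImplicit false

/-! Ball stabilisers, double cosets and boundedness of length functions on them. -/

namespace Pool.Agent.X185.QP

open Classical

/-- `h` has zero shift and moves zero inside the ball of level `-m`. -/
def InH (m : ℤ) (h : G) : Prop := κ h = 0 ∧ Agree (-m) (ac h zE) zE

lemma InH.mono {m n : ℤ} (hmn : m ≤ n) {h : G} (hh : InH m h) : InH n h :=
  ⟨hh.1, hh.2.mono (by omega)⟩

lemma agree_ac0 {h : G} (hk : κ h = 0) (x y : E) (n : ℤ) :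
    Agree n x y ↔ Agree n (ac h x) (ac h y) := by
  have := agree_ac h x y n
  rwa [hk, add_zero] at this

/-- The transport from `w` to `w'`. -/
noncomputable def tau (w w' : E) : G :=
  mk0 (twP w w' (fun i => Equiv.swap (w.1 i) (w'.1 i)) (fun i => Equiv.swap_apply_left _ _))
    ⟨Set.range w.1 ∪ Set.range w'.1,
      (Set.countable_range _).union (Set.countable_range _),
      twP_good _ _ _ _ _ (fun i => Or.inl ⟨i, rfl⟩) (fun i a ha => by
        apply Equiv.swap_apply_of_ne_of_ne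
        · rintro rfl; exact ha (Or.inl ⟨i, rfl⟩)
        · rintro rfl; exact ha (Or.inr ⟨i, rfl⟩))⟩

@[simp] lemma κ_tau (w w' : E) : κ (tau w w') = 0 := rfl

lemma ac_tau (w w' x : E) (i : ℤ) : (ac (tau w w') x).1 i =
    if ∀ j < i, x.1 j = w.1 j then Equiv.swap (w.1 i) (w'.1 i) (x.1 i) else x.1 i := rfl

lemma ac_tau_self (w w' : E) : ac (tau w w') w = w' := by
  apply E.ext
  intro i
  rw [ac_tau]
  split_ifs with h
  · exact Equiv.swap_apply_left _ _
  · exact absurd (fun j _ => rfl) h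

lemma tau_fix_zero {w w' : E} {m : ℤ} (h1 : ∀ i < m, w.1 i = 0) (h2 : ∀ i < m, w'.1 i = 0)
    (h3 : w.1 m ≠ 0) (h4 : w'.1 m ≠ 0) : ac (tau w w') zE = zE := by
  apply E.ext
  intro i
  rw [ac_tau]
  split_ifs with hc
  · rcases lt_trichotomy i m with hlt | rfl | hlt
    · rw [h1 i hlt, h2 i hlt]; simp
    · exact Equiv.swap_apply_of_ne_of_ne (Ne.symm h3) (Ne.symm h4)
    · exact absurd (hc m hlt).symm h3
  · rfl

/-- Outside the zero ball the transport of a sequence in that ball to zero is trivial. -/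
lemma tau_outside {w x : E} (hw : Agree 0 w zE) (hx : ¬ Agree 0 x zE) :
    ac (tau w zE) x = x := by
  unfold Agree at hx
  push Not at hx
  obtain ⟨i, hi, hxi⟩ := hx
  obtain ⟨m, hm, h1, h2⟩ := exists_first hxi
  apply E.ext
  intro j
  rw [ac_tau]
  split_ifs with hc
  · rcases le_or_gt j 0 with hj | hj
    · rw [hw j hj, zE_apply, Equiv.swap_self]; rfl
    · exfalso
      apply h1
      have := hc m (by omega)
      rw [this, hw m (by omega)]
  · rfl

/-- A sequence with a single letter one at place zero. -/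
def w1 : E := ⟨fun i => if i = 0 then 1 else 0, -1, fun i hi => by
  show (if i = 0 then (1 : ℝ) else 0) = 0
  rw [if_neg (by omega)]⟩

lemma w1_apply (i : ℤ) : w1.1 i = if i = 0 then 1 else 0 := rfl

/-- The sibling swap. -/
noncomputable def sg : G := tau zE w1

lemma ac_sg_zero : ac sg zE = w1 := ac_tau_self _ _

lemma ac_sg_w1 : ac sg w1 = zE := by
  apply E.ext
  intro i
  unfold sg
  rw [ac_tau]
  rcases lt_trichotomy i 0 with hlt | rfl | hlt
  · split_ifs
    · rw [w1_apply, if_neg (by omega), zE_apply]; simp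
    · rw [w1_apply, if_neg (by omega)]; rfl
  · rw [if_pos]
    · rw [Equiv.swap_apply_right]
    · intro j hj
      rw [w1_apply, if_neg (by omega)]; rfl
  · rw [if_neg]
    · rw [w1_apply, if_neg (by omega)]; rfl
    · intro H
      have := H 0 hlt
      rw [w1_apply] at this
      simp at this

lemma ac_sg_inv_zero : ac sg⁻¹ zE = w1 := by
  have := ac_inv_ac sg w1
  rwa [ac_sg_w1] at this

lemma not_agree_w1 : ¬ Agree 0 w1 zE := by
  intro h
  have := h 0 le_rfl
  rw [w1_apply] at this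
  simp at this

theorem H0_bounded (L : G → ℕ) (hL : IsLen L) : ∃ B : ℕ, ∀ h : G, InH 0 h → L h ≤ B := by
  obtain ⟨B, hB⟩ := stab_bounded L hL
  refine ⟨2 * L sg + 2 * B, fun h hh => ?_⟩
  set w := ac h zE with hw
  have hw0 : Agree 0 w zE := by simpa using hh.2
  have h1 : ac (sg * tau w zE * sg⁻¹) zE = zE := by
    rw [ac_mul, ac_mul, ac_sg_inv_zero, tau_outside hw0 not_agree_w1, ac_sg_w1]
  have h2 := hB (sg * tau w zE * sg⁻¹) (by simp [sg]) h1
  have h3 : ac (tau w zE * h) zE = zE := by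
    rw [ac_mul, ← hw, ac_tau_self]
  have h4 := hB (tau w zE * h) (by simp [hh.1]) h3
  have e1 : tau w zE = sg⁻¹ * (sg * tau w zE * sg⁻¹) * sg := by group
  have h5 : L (tau w zE) ≤ 2 * L sg + B := by
    rw [e1]
    have a1 := hL.mul (sg⁻¹ * (sg * tau w zE * sg⁻¹)) sg
    have a2 := hL.mul sg⁻¹ (sg * tau w zE * sg⁻¹)
    have a3 := hL.inv sg
    omega
  have e2 : h = (tau w zE)⁻¹ * (tau w zE * h) := by group
  rw [e2]
  have a1 := hL.mul (tau w zE)⁻¹ (tau w zE * h)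
  have a2 := hL.inv (tau w zE)
  omega

lemma InH_conj_t {m : ℤ} {h : G} (n : ℕ) (hh : InH m h) : InH (m - n) (t ^ n * h * (t ^ n)⁻¹) := by
  refine ⟨by simp [hh.1], ?_⟩
  rw [ac_mul, ac_mul]
  have e1 : ac (t ^ n)⁻¹ zE = zE := by
    have := ac_inv_ac (t ^ n) zE
    rwa [ac_t_pow_zero] at this
  rw [e1]
  have := (agree_ac (t ^ n) (ac h zE) zE (-m)).1 hh.2
  rw [ac_t_pow_zero, κ_pow, κ_t, mul_one] at this
  have e : -(m - (n : ℤ)) = -m + n := by ring
  rw [e]
  exact this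

lemma InH_conj_t' {m : ℤ} {h : G} (n : ℕ) (hh : InH m h) : InH (m + n) ((t ^ n)⁻¹ * h * t ^ n) := by
  refine ⟨by simp [hh.1], ?_⟩
  rw [ac_mul, ac_mul, ac_t_pow_zero]
  have := (agree_ac (t ^ n)⁻¹ (ac h zE) zE (-m)).1 hh.2
  have e1 : ac (t ^ n)⁻¹ zE = zE := by
    have := ac_inv_ac (t ^ n) zE
    rwa [ac_t_pow_zero] at this
  rw [e1, κ_inv, κ_pow, κ_t, mul_one] at this
  have e : -(m + (n : ℤ)) = -m + -n := by ring
  rw [e]
  exact this

theorem HN_bounded (L : G → ℕ) (hL : IsLen L) (m : ℤ) : ∃ B : ℕ, ∀ h : G, InH m h → L h ≤ B := by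
  obtain ⟨B, hB⟩ := H0_bounded L hL
  refine ⟨2 * L (t ^ m.toNat) + B, fun h hh => ?_⟩
  have h1 := InH_conj_t m.toNat hh
  have h2 := hB _ (h1.mono (by omega))
  have e : h = (t ^ m.toNat)⁻¹ * (t ^ m.toNat * h * (t ^ m.toNat)⁻¹) * t ^ m.toNat := by group
  rw [e]
  have a1 := hL.mul ((t ^ m.toNat)⁻¹ * (t ^ m.toNat * h * (t ^ m.toNat)⁻¹)) (t ^ m.toNat)
  have a2 := hL.mul (t ^ m.toNat)⁻¹ (t ^ m.toNat * h * (t ^ m.toNat)⁻¹)
  have a3 := hL.inv (t ^ m.toNat)
  omega

lemma exists_InH {h : G} (hk : κ h = 0) : ∃ m : ℕ, InH m h := by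
  obtain ⟨n, hn⟩ := exists_agree (ac h zE) zE
  exact ⟨(-n).toNat, hk, hn.mono (by omega)⟩

/-- Double coset transitivity. -/
lemma double_coset {m : ℤ} (hm : 0 ≤ m) {q q' : G} (h1 : InH (m + 1) q) (h2 : ¬ InH m q)
    (h1' : InH (m + 1) q') (h2' : ¬ InH m q') :
    ∃ a b : G, InH 0 a ∧ InH 0 b ∧ q' = a * q * b := by
  have key : ∀ q : G, InH (m + 1) q → ¬ InH m q →
      (∀ i < -m, (ac q zE).1 i = 0) ∧ (ac q zE).1 (-m) ≠ 0 := by
    intro q hq hq'
    refine ⟨fun i hi => hq.2 i (by omega), fun h0 => hq' ⟨hq.1, fun i hi => ?_⟩⟩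
    rcases eq_or_lt_of_le hi with rfl | hlt
    · exact h0
    · exact hq.2 i (by omega)
  obtain ⟨k1, k2⟩ := key q h1 h2
  obtain ⟨k1', k2'⟩ := key q' h1' h2'
  have hfix := tau_fix_zero k1 k1' k2 k2'
  set τ := tau (ac q zE) (ac q' zE) with hτ
  have hτq : ac τ (ac q zE) = ac q' zE := ac_tau_self _ _
  refine ⟨τ, q⁻¹ * τ⁻¹ * q', ⟨rfl, by rw [hfix]; exact Agree.refl _ _⟩, ⟨?_, ?_⟩, by group⟩
  · simp [hτ, h1.1, h1'.1]
  · have : ac (q⁻¹ * τ⁻¹ * q') zE = zE := by
      rw [ac_mul, ac_mul, ← hτq]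
      simp
    rw [this]; exact Agree.refl _ _

lemma InH.inv {m : ℤ} {h : G} (hh : InH m h) : InH m h⁻¹ := by
  refine ⟨by simp [hh.1], ?_⟩
  have := (agree_ac0 (h := h⁻¹) (by simp [hh.1]) (ac h zE) zE (-m)).1 hh.2
  rw [ac_inv_ac] at this
  exact this.symm

lemma InH.mul {m : ℤ} {h h' : G} (hh : InH m h) (hh' : InH m h') : InH m (h * h') := by
  refine ⟨by simp [hh.1, hh'.1], ?_⟩
  rw [ac_mul]
  exact ((agree_ac0 hh.1 _ _ _).1 hh'.2).trans hh.2

lemma InH.pow {m : ℤ} {h : G} (hh : InH m h) (n : ℕ) : InH m (h ^ n) := by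
  induction n with
  | zero => exact ⟨by simp, by rw [pow_zero, ac_one]; exact Agree.refl _ _⟩
  | succ n ih => rw [pow_succ]; exact ih.mul hh

/-- If arbitrarily high elements of bounded length exist, the kernel is bounded. -/
theorem ker_bounded (L : G → ℕ) (hL : IsLen L) (R : ℕ)
    (hR : ∀ M : ℕ, ∃ h : G, κ h = 0 ∧ ¬ InH M h ∧ L h ≤ R) :
    ∃ B : ℕ, ∀ h : G, κ h = 0 → L h ≤ B := by
  obtain ⟨B, hB⟩ := H0_bounded L hL
  refine ⟨2 * R + 2 * B, fun q hq => ?_⟩
  obtain ⟨m, hm⟩ := exists_InH hq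
  obtain ⟨h, hk, hnot, hLh⟩ := hR m
  -- the exact level of `h`
  have hex : ∃ n : ℕ, InH n h := exists_InH hk
  have hfind := Nat.find_spec hex
  have hmin := fun k => Nat.find_min hex (m := k)
  set n := Nat.find hex with hn
  have hmn : m < n := by
    by_contra hle
    exact hnot (hfind.mono (by exact_mod_cast not_lt.1 hle))
  clear_value n
  obtain ⟨k, rfl⟩ : ∃ k, n = k + 1 := ⟨n - 1, by omega⟩
  have hkn : ¬ InH (k : ℤ) h := hmin k (by omega)
  have hk1 : InH ((k : ℤ) + 1) h := by exact_mod_cast hfind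
  have hqk : InH (k : ℤ) q := hm.mono (by exact_mod_cast (by omega : m ≤ k))
  have hhq1 : InH ((k : ℤ) + 1) (h * q) := hk1.mul (hqk.mono (by omega))
  have hhq2 : ¬ InH (k : ℤ) (h * q) := by
    intro H
    apply hkn
    have := H.mul hqk.inv
    simpa using this
  obtain ⟨a, b, ha, hb, hab⟩ := double_coset (by omega) hk1 hkn hhq1 hhq2
  have e : q = h⁻¹ * (a * h * b) := by rw [← hab]; group
  rw [e]
  have a1 := hL.mul h⁻¹ (a * h * b)
  have a2 := hL.mul (a * h) b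
  have a3 := hL.mul a h
  have a4 := hL.inv h
  have a5 := hB a ha
  have a6 := hB b hb
  omega

/-- Powers: `g ^ n` differs from a power of the shift by an element of a fixed ball stabiliser. -/
lemma pow_decomp {g : G} (hk : 0 ≤ κ g) : ∃ M : ℕ, ∀ n : ℕ,
    InH M (g ^ n * (t ^ ((n : ℤ) * κ g))⁻¹) := by
  obtain ⟨N, hN⟩ := exists_agree (ac g zE) zE
  refine ⟨(-N).toNat, fun n => ⟨?_, ?_⟩⟩
  · simp
  · have hN' : Agree (-((-N).toNat : ℤ)) (ac g zE) zE := hN.mono (by omega)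
    have e1 : ac (t ^ ((n : ℤ) * κ g))⁻¹ zE = zE := by
      rw [← zpow_neg]; exact ac_t_zpow_zero _
    rw [ac_mul, e1]
    induction n with
    | zero => rw [pow_zero, ac_one]; exact Agree.refl _ _
    | succ n ih =>
      have e2 : ac (t ^ ((n : ℤ) * κ g))⁻¹ zE = zE := by
        rw [← zpow_neg]; exact ac_t_zpow_zero _
      have ih' := ih e2
      rw [pow_succ', ac_mul]
      have h1 := (agree_ac g _ _ _).1 ih'
      exact (h1.mono (by omega)).trans hN'

end Pool.Agent.X185.QP
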