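import Pool.Agent.X185.QP3

set_option autoImplicit false

/-! Word lengths and the hyperbolic structure. -/

namespace Pool.Agent.X185.QP

open Classical Pointwise

section word
variable {A : Type} [Group A]

/-- Word length. -/
noncomputable def wl (S : Set A) (g : A) : ℕ := sInf {n : ℕ | g ∈ (S ∪ S⁻¹) ^ n}

lemma inv_pow_set (S : Set A) {n : ℕ} {g : A} (h : g ∈ (S ∪ S⁻¹) ^ n) :
    g⁻¹ ∈ (S ∪ S⁻¹) ^ n := by
  have e : ((S ∪ S⁻¹) ^ n)⁻¹ = (S ∪ S⁻¹) ^ n := by
    rw [← inv_pow, Set.union_inv, inv_inv, Set.union_comm]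
  rw [← e]
  simpa using h

lemma exists_pow_mem {S : Set A} (hS : Subgroup.closure S = ⊤) (g : A) :
    ∃ n : ℕ, g ∈ (S ∪ S⁻¹) ^ n := by
  have hg : g ∈ Subgroup.closure S := by rw [hS]; trivial
  induction hg using Subgroup.closure_induction with
  | mem x hx => exact ⟨1, by rw [pow_one]; exact Or.inl hx⟩
  | one => exact ⟨0, by rw [pow_zero]; rfl⟩
  | mul x y _ _ hx hy =>
    obtain ⟨m, hm⟩ := hx
    obtain ⟨n, hn⟩ := hy
    exact ⟨m + n, by rw [pow_add]; exact Set.mul_mem_mul hm hn⟩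
  | inv x _ hx =>
    obtain ⟨m, hm⟩ := hx
    exact ⟨m, inv_pow_set S hm⟩

lemma wl_mem {S : Set A} (hS : Subgroup.closure S = ⊤) (g : A) :
    g ∈ (S ∪ S⁻¹) ^ (wl S g) := Nat.sInf_mem (exists_pow_mem hS g)

lemma wl_le {S : Set A} {g : A} {n : ℕ} (h : g ∈ (S ∪ S⁻¹) ^ n) : wl S g ≤ n := Nat.sInf_le h

lemma wl_isLen {S : Set A} (hS : Subgroup.closure S = ⊤) : IsLen (wl S) where
  one := by
    have : wl S (1 : A) ≤ 0 := wl_le (by rw [pow_zero]; rfl)
    omega
  inv := by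
    have key : ∀ g, wl S g⁻¹ ≤ wl S g := fun g => wl_le (inv_pow_set S (wl_mem hS g))
    intro g
    apply le_antisymm (key g)
    have := key g⁻¹
    rwa [inv_inv] at this
  mul g h := wl_le (by rw [pow_add]; exact Set.mul_mem_mul (wl_mem hS g) (wl_mem hS h))

lemma wl_gen {S : Set A} {s : A} (hs : s ∈ S) : wl S s ≤ 1 :=
  wl_le (by rw [pow_one]; exact Or.inl hs)

/-- Gromov product. -/
noncomputable def gpr (S : Set A) (a b : A) : ℝ :=
  ((wl S a : ℝ) + (wl S b : ℝ) - (wl S (a⁻¹ * b) : ℝ)) / 2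

/-- Loxodromic. -/
def Lox (S : Set A) (g : A) : Prop :=
  ∃ c : ℝ, 0 < c ∧ ∀ n : ℕ, c * (n : ℝ) ≤ (wl S (g ^ n) : ℝ)

/-- Same end. -/
def SE (S : Set A) (a b : A) : Prop :=
  ∀ K : ℝ, ∃ N : ℕ, ∀ n m : ℕ, N ≤ n → N ≤ m → K ≤ gpr S (a ^ n) (b ^ m)

/-- Quasi-parabolic generating set. -/
def QPs (S : Set A) : Prop :=
  (Subgroup.closure S = ⊤ ∧
         (∃ δ : ℝ, ∀ x y z : A, min (gpr S x y) (gpr S y z) - δ ≤ gpr S x z) ∧
         (∃ g h : A, Lox S g ∧ Lox S h ∧
            ¬ ((SE S g h ∧ SE S g⁻¹ h⁻¹) ∨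
               (SE S g h⁻¹ ∧ SE S g⁻¹ h))) ∧
         (∀ g h : A, Lox S g → Lox S h →
            (SE S g h ∨ SE S g h⁻¹ ∨ SE S g⁻¹ h ∨ SE S g⁻¹ h⁻¹)))

end word

/-! ### Levels of joins -/

/-- The level of the join of two group elements. -/
lemma exists_lev (a b : G) : ∃ l : ℤ, ∀ n : ℤ,
    n ≤ l ↔ (n ≤ κ a ∧ n ≤ κ b ∧ Agree n (ac a zE) (ac b zE)) := by
  obtain ⟨N, hN⟩ := exists_agree (ac a zE) (ac b zE)
  obtain ⟨l, h1, h2⟩ := Int.exists_greatest_of_bdd
    (P := fun n => n ≤ κ a ∧ n ≤ κ b ∧ Agree n (ac a zE) (ac b zE))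
    ⟨κ a, fun z hz => hz.1⟩ ⟨min N (min (κ a) (κ b)), by omega, by omega, hN.mono (by omega)⟩
  refine ⟨l, fun n => ⟨fun h => ⟨h.trans h1.1, h.trans h1.2.1, h1.2.2.mono h⟩, fun h => h2 n h⟩⟩

/-- The level of the join. -/
noncomputable def lev (a b : G) : ℤ := (exists_lev a b).choose

lemma le_lev (a b : G) (n : ℤ) :
    n ≤ lev a b ↔ (n ≤ κ a ∧ n ≤ κ b ∧ Agree n (ac a zE) (ac b zE)) :=
  (exists_lev a b).choose_spec n

lemma lev_le_left (a b : G) : lev a b ≤ κ a := ((le_lev a b _).1 le_rfl).1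
lemma lev_le_right (a b : G) : lev a b ≤ κ b := ((le_lev a b _).1 le_rfl).2.1
lemma lev_agree (a b : G) : Agree (lev a b) (ac a zE) (ac b zE) := ((le_lev a b _).1 le_rfl).2.2

lemma lev_comm (a b : G) : lev a b = lev b a := by
  apply le_antisymm
  · rw [le_lev]; exact ⟨lev_le_right a b, lev_le_left a b, (lev_agree a b).symm⟩
  · rw [le_lev]; exact ⟨lev_le_right b a, lev_le_left b a, (lev_agree b a).symm⟩

lemma lev_ultra (a b c : G) : min (lev a b) (lev b c) ≤ lev a c := by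
  rw [le_lev]
  exact ⟨(min_le_left _ _).trans (lev_le_left a b), (min_le_right _ _).trans (lev_le_right b c),
    ((lev_agree a b).mono (min_le_left _ _)).trans ((lev_agree b c).mono (min_le_right _ _))⟩

lemma lev_self (a : G) : lev a a = κ a := by
  apply le_antisymm (lev_le_left a a)
  rw [le_lev]
  exact ⟨le_rfl, le_rfl, Agree.refl _ _⟩

lemma lev_mul (g a b : G) : lev (g * a) (g * b) = κ g + lev a b := by
  have key : ∀ n, n ≤ lev (g * a) (g * b) ↔ n ≤ κ g + lev a b := by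
    intro n
    rw [le_lev]
    have h1 : n ≤ κ g + lev a b ↔ n - κ g ≤ lev a b := by omega
    rw [h1, le_lev]
    have h2 := agree_ac g (ac a zE) (ac b zE) (n - κ g)
    rw [sub_add_cancel] at h2
    rw [h2, κ_mul, κ_mul, ac_mul, ac_mul]
    constructor
    · rintro ⟨h3, h4, h5⟩; exact ⟨by omega, by omega, h5⟩
    · rintro ⟨h3, h4, h5⟩; exact ⟨by omega, by omega, h5⟩
  exact le_antisymm ((key _).1 le_rfl) ((key _).2 le_rfl)

/-- The tree distance. -/
noncomputable def Di (a b : G) : ℤ := κ a + κ b - 2 * lev a b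

lemma Di_mul (g a b : G) : Di (g * a) (g * b) = Di a b := by
  unfold Di
  rw [lev_mul, κ_mul, κ_mul]; ring

lemma Di_tri (a b c : G) : Di a c ≤ Di a b + Di b c := by
  unfold Di
  have h1 := lev_ultra a b c
  have h2 := lev_le_right a b
  have h3 := lev_le_left b c
  omega

lemma Di_one_inv (g : G) : Di g 1 = Di 1 g := by
  unfold Di
  rw [lev_comm]; ring

lemma Di_inv (a b : G) : Di 1 (a⁻¹ * b) = Di a b := by
  have := Di_mul a 1 (a⁻¹ * b)
  rw [mul_one, mul_inv_cancel_left] at this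
  exact this.symm

lemma Di_kappa (g : G) : |κ g| ≤ Di 1 g := by
  unfold Di
  have h1 := lev_le_left 1 g
  have h2 := lev_le_right 1 g
  rw [κ_one] at *
  rw [abs_le]
  constructor <;> omega

/-- Generating set. -/
def X0 : Set G := {h | InH 0 h} ∪ {t}

lemma lev_InH {m : ℤ} (hm : 0 ≤ m) {h : G} (hh : InH m h) : -m ≤ lev 1 h := by
  rw [le_lev]
  exact ⟨by rw [κ_one]; omega, by rw [hh.1]; omega, hh.2.symm⟩

lemma Di_X0 {x : G} (hx : x ∈ X0 ∪ X0⁻¹) : Di 1 x ≤ 1 := by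
  have key : ∀ x ∈ X0, Di 1 x ≤ 1 := by
    rintro x (hx | hx)
    · have h1 := lev_InH le_rfl hx
      unfold Di
      rw [κ_one, hx.1]
      omega
    · rw [Set.mem_singleton_iff] at hx
      subst hx
      have : 0 ≤ lev 1 t := by
        rw [le_lev]
        exact ⟨le_rfl, by rw [κ_t]; omega, by rw [ac_one, ac_t_zero]; exact Agree.refl _ _⟩
      unfold Di
      rw [κ_one, κ_t]
      omega
  rcases hx with hx | hx
  · exact key x hx
  · have := key _ hx
    have h2 := Di_inv x 1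
    rw [mul_one, Di_one_inv] at h2
    omega

lemma Di_le_of_mem {n : ℕ} {g : G} (h : g ∈ (X0 ∪ X0⁻¹) ^ n) : Di 1 g ≤ n := by
  induction n generalizing g with
  | zero =>
    rw [pow_zero] at h
    rw [Set.mem_one] at h
    subst h
    unfold Di
    rw [lev_self]; simp
  | succ n ih =>
    rw [pow_succ] at h
    obtain ⟨a, ha, b, hb, rfl⟩ := Set.mem_mul.1 h
    have h1 := ih ha
    have h2 := Di_X0 hb
    have h3 := Di_tri 1 a (a * b)
    have h4 := Di_inv a (a * b)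
    rw [inv_mul_cancel_left] at h4
    push_cast
    omega

lemma t_pow_mem (n : ℕ) : t ^ n ∈ (X0 ∪ X0⁻¹) ^ n :=
  Set.pow_mem_pow (Or.inl (Or.inr rfl))

lemma mem_of_Di (g : G) : g ∈ (X0 ∪ X0⁻¹) ^ ((Di 1 g).toNat + 1) := by
  obtain ⟨l, hl⟩ : ∃ l, l = lev 1 g := ⟨_, rfl⟩
  have h1 := lev_le_left 1 g
  have h2 := lev_le_right 1 g
  have h3 := lev_agree 1 g
  rw [← hl] at h1 h2 h3
  rw [κ_one] at h1
  rw [ac_one] at h3
  have hD : Di 1 g = κ g - 2 * l := by unfold Di; rw [κ_one, ← hl]; ring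
  obtain ⟨p, hp⟩ : ∃ p : ℕ, (p : ℤ) = -l := ⟨(-l).toNat, by omega⟩
  obtain ⟨q, hq⟩ : ∃ q : ℕ, (q : ℤ) = κ g - l := ⟨(κ g - l).toNat, by omega⟩
  have hsum : (Di 1 g).toNat + 1 = p + 1 + q := by omega
  set h : G := t ^ p * g * (t ^ q)⁻¹ with hh
  have hmem : InH 0 h := by
    refine ⟨?_, ?_⟩
    · simp [hh]; omega
    · rw [hh, ac_mul, ac_mul]
      have e1 : ac (t ^ q)⁻¹ zE = zE := by
        have := ac_inv_ac (t ^ q) zE
        rwa [ac_t_pow_zero] at this
      rw [e1]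
      have := (agree_ac (t ^ p) _ _ _).1 h3.symm
      rw [ac_t_pow_zero, κ_pow, κ_t] at this
      exact this.mono (by omega)
  have e : g = (t ^ p)⁻¹ * h * t ^ q := by rw [hh]; group
  rw [hsum, pow_add, pow_add, e, pow_one]
  exact Set.mul_mem_mul (Set.mul_mem_mul (inv_pow_set X0 (t_pow_mem p)) (Or.inl (Or.inl hmem)))
    (t_pow_mem q)

lemma closure_X0 : Subgroup.closure X0 = ⊤ := by
  rw [eq_top_iff]
  intro g _
  have key : ∀ n : ℕ, ∀ g : G, g ∈ (X0 ∪ X0⁻¹) ^ n → g ∈ Subgroup.closure X0 := by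
    intro n
    induction n with
    | zero =>
      intro g hg
      rw [pow_zero, Set.mem_one] at hg
      rw [hg]; exact one_mem _
    | succ n ih =>
      intro g hg
      rw [pow_succ] at hg
      obtain ⟨a, ha, b, hb, rfl⟩ := Set.mem_mul.1 hg
      refine mul_mem (ih a ha) ?_
      rcases hb with hb | hb
      · exact Subgroup.subset_closure hb
      · have := Subgroup.subset_closure (k := X0) hb
        exact inv_mem_iff.1 this
  exact key _ g (mem_of_Di g)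

lemma wl_lower (g : G) : Di 1 g ≤ wl X0 g := Di_le_of_mem (wl_mem closure_X0 g)

lemma wl_upper (g : G) : (wl X0 g : ℤ) ≤ Di 1 g + 1 := by
  have h1 := wl_le (mem_of_Di g)
  have h2 := Di_kappa g
  have h3 := abs_nonneg (κ g)
  omega

/-- Gromov product of the tree distance. -/
noncomputable def gD (a b : G) : ℤ := lev a b - lev 1 a - lev 1 b

lemma gpr_bounds (a b : G) : (gD a b : ℝ) - 1 ≤ gpr X0 a b ∧ gpr X0 a b ≤ (gD a b : ℝ) + 1 := by
  have h1 := wl_lower a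
  have h2 := wl_upper a
  have h3 := wl_lower b
  have h4 := wl_upper b
  have h5 := wl_lower (a⁻¹ * b)
  have h6 := wl_upper (a⁻¹ * b)
  rw [Di_inv] at h5 h6
  have e : Di 1 a + Di 1 b - Di a b = 2 * gD a b := by
    unfold Di gD
    rw [κ_one]; ring
  have k1 : 2 * gD a b - 1 ≤ (wl X0 a : ℤ) + wl X0 b - wl X0 (a⁻¹ * b) := by omega
  have k2 : (wl X0 a : ℤ) + wl X0 b - wl X0 (a⁻¹ * b) ≤ 2 * gD a b + 2 := by omega
  have k1' : (2 * (gD a b : ℝ) - 1) ≤ (wl X0 a : ℝ) + wl X0 b - wl X0 (a⁻¹ * b) := by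
    exact_mod_cast k1
  have k2' : (wl X0 a : ℝ) + wl X0 b - wl X0 (a⁻¹ * b) ≤ 2 * (gD a b : ℝ) + 2 := by
    exact_mod_cast k2
  unfold gpr
  constructor <;> linarith

lemma gD_hyp (x y z : G) : min (gD x y) (gD y z) ≤ gD x z := by
  unfold gD
  have a1 := lev_ultra x y z
  have a2 := lev_ultra 1 x y
  have a3 := lev_ultra 1 y x
  have a4 := lev_ultra 1 x z
  have a5 := lev_ultra 1 z x
  have a6 := lev_ultra 1 y z
  have a7 := lev_ultra 1 z y
  have a8 := lev_ultra x 1 y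
  have a9 := lev_ultra x 1 z
  have a10 := lev_ultra y 1 z
  have a11 := lev_ultra x z y
  have a12 := lev_ultra y x z
  have c1 := lev_comm x 1
  have c2 := lev_comm y 1
  have c3 := lev_comm z 1
  have c4 := lev_comm y x
  have c5 := lev_comm z x
  have c6 := lev_comm z y
  omega

lemma X0_hyp : ∃ δ : ℝ, ∀ x y z : G, min (gpr X0 x y) (gpr X0 y z) - δ ≤ gpr X0 x z := by
  refine ⟨2, fun x y z => ?_⟩
  have h1 := gpr_bounds x y
  have h2 := gpr_bounds y z
  have h3 := gpr_bounds x z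
  have h4 := gD_hyp x y z
  have h4' : min (gD x y : ℝ) (gD y z : ℝ) ≤ gD x z := by exact_mod_cast h4
  rcases min_le_iff.1 h4' with h5 | h5
  · have := min_le_left (gpr X0 x y) (gpr X0 y z)
    linarith [h1.2, h3.1]
  · have := min_le_right (gpr X0 x y) (gpr X0 y z)
    linarith [h2.2, h3.1]

lemma lox_of_kappa {g : G} (hg : κ g ≠ 0) : Lox X0 g := by
  refine ⟨1, one_pos, fun n => ?_⟩
  have h1 := Di_kappa (g ^ n)
  have h2 := wl_lower (g ^ n)
  rw [κ_pow, abs_mul, Nat.abs_cast] at h1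
  have h3 : 1 ≤ |κ g| := Int.one_le_abs hg
  have h4 : (n : ℤ) ≤ wl X0 (g ^ n) := by nlinarith
  rw [one_mul]
  exact_mod_cast h4

/-- Loxodromics move levels, for every generating set. -/
lemma kappa_of_lox {S : Set G} (hS : Subgroup.closure S = ⊤) {g : G} (hg : Lox S g) : κ g ≠ 0 := by
  intro h0
  obtain ⟨c, hc, hcn⟩ := hg
  obtain ⟨m, hm⟩ := exists_InH h0
  obtain ⟨B, hB⟩ := HN_bounded (wl S) (wl_isLen hS) m
  obtain ⟨n, hn⟩ := exists_nat_gt (B / c)
  have h1 := hcn n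
  have h2 := hB _ (hm.pow n)
  have h3 : (wl S (g ^ n) : ℝ) ≤ B := by exact_mod_cast h2
  rw [div_lt_iff₀ hc] at hn
  linarith

lemma SE_neg {g h : G} (hg : κ g < 0) (hh : κ h < 0) : SE X0 g h := by
  intro K
  obtain ⟨N, hN⟩ := exists_nat_gt (K + 1)
  refine ⟨N, fun n m hn hm => ?_⟩
  have h1 := (gpr_bounds (g ^ n) (h ^ m)).1
  have h2 : (N : ℤ) ≤ gD (g ^ n) (h ^ m) := by
    unfold gD
    have a1 := lev_le_right 1 (g ^ n)
    have a2 := lev_le_right 1 (h ^ m)
    have a3 := lev_ultra (g ^ n) 1 (h ^ m)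
    rw [lev_comm (g ^ n) 1] at a3
    rw [κ_pow] at a1 a2
    have b1 : (n : ℤ) * κ g ≤ -N := by nlinarith
    have b2 : (m : ℤ) * κ h ≤ -N := by nlinarith
    omega
  have h3 : (N : ℝ) ≤ gD (g ^ n) (h ^ m) := by exact_mod_cast h2
  linarith

lemma gD_t (n : ℕ) {b : G} (hb : κ b ≤ 0 ∨ ¬ Agree 0 (ac b zE) zE) : gD (t ^ n) b = 0 := by
  have h1 : lev 1 (t ^ n) = 0 := by
    have a0 : lev 1 (t ^ n) ≤ 0 := by
      have := lev_le_left 1 (t ^ n)
      rwa [κ_one] at this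
    apply le_antisymm a0
    rw [le_lev]
    refine ⟨le_rfl, by rw [κ_pow, κ_t]; omega, ?_⟩
    rw [ac_one, ac_t_pow_zero]; exact Agree.refl _ _
  have h2 : lev (t ^ n) b = lev 1 b := by
    apply le_antisymm
    · have a1 := lev_le_right (t ^ n) b
      have a2 := lev_agree (t ^ n) b
      rw [ac_t_pow_zero] at a2
      rw [le_lev, ac_one]
      refine ⟨?_, a1, a2⟩
      rw [κ_one]
      rcases hb with hb | hb
      · exact a1.trans hb
      · by_contra hlt
        exact hb (a2.symm.mono (by omega))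
    · have a1 := lev_le_right 1 b
      have a2 := lev_agree 1 b
      have a3 := lev_le_left 1 b
      rw [ac_one] at a2
      rw [κ_one] at a3
      rw [le_lev, ac_t_pow_zero]
      exact ⟨by rw [κ_pow, κ_t]; omega, a1, a2⟩
  unfold gD
  rw [h1, h2]; ring

theorem QP_X0 : QPs X0 := by
  refine ⟨closure_X0, X0_hyp, ⟨t, sg * t * sg⁻¹, lox_of_kappa (by simp), lox_of_kappa (by simp [sg]),
    ?_⟩, ?_⟩
  · have key : ∀ (h : G), (∀ m : ℕ, 1 ≤ m → κ (h ^ m) ≤ 0 ∨ ¬ Agree 0 (ac (h ^ m) zE) zE) →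
        ¬ SE X0 t h := by
      intro h hh hse
      obtain ⟨N, hN⟩ := hse 2
      have h1 := hN N (N + 1) le_rfl (by omega)
      have h2 := (gpr_bounds (t ^ N) (h ^ (N + 1))).2
      rw [gD_t N (hh (N + 1) (by omega))] at h2
      norm_num at h2
      linarith
    rintro (⟨h1, _⟩ | ⟨h1, _⟩)
    · refine key _ (fun m hm => Or.inr ?_) h1
      have e : (sg * t * sg⁻¹) ^ m = sg * t ^ m * sg⁻¹ := by
        rw [conj_pow]
      rw [e, ac_mul, ac_mul, ac_sg_inv_zero]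
      intro hA
      have h2 : Agree 0 (ac (t ^ m) w1) zE := by
        obtain ⟨k, rfl⟩ : ∃ k, m = k + 1 := ⟨m - 1, by omega⟩
        have hw : Agree (-1) w1 zE := by
          intro i hi
          rw [w1_apply, if_neg (by omega)]; rfl
        have := (agree_ac (t ^ (k + 1)) _ _ _).1 hw
        rw [ac_t_pow_zero, κ_pow, κ_t] at this
        exact this.mono (by push_cast; omega)
      have h3 := (agree_ac0 (h := sg) (by simp [sg]) _ _ _).1 h2
      rw [ac_sg_zero] at h3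
      exact not_agree_w1 (h3.symm.trans hA)
    · refine key _ (fun m hm => Or.inl ?_) h1
      simp [sg]
  · intro g h hg hh
    have h1 := kappa_of_lox closure_X0 hg
    have h2 := kappa_of_lox closure_X0 hh
    rcases lt_or_gt_of_ne h1 with a | a
    · rcases lt_or_gt_of_ne h2 with b | b
      · exact Or.inl (SE_neg a b)
      · exact Or.inr (Or.inl (SE_neg a (by simpa using b)))
    · rcases lt_or_gt_of_ne h2 with b | b
      · exact Or.inr (Or.inr (Or.inl (SE_neg (by simpa using a) b)))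
      · exact Or.inr (Or.inr (Or.inr (SE_neg (by simpa using a) (by simpa using b))))

end Pool.Agent.X185.QP
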